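import Pool.Agent.Lib.MP_19e880_co_LB.Defs
import Pool.Agent.Lib.MP_19e880_co.LevelFour

/-!
Join components of the vertex set of a link: basic properties and the sphere of a component.
-/

set_option autoImplicit false
set_option linter.unusedSectionVars false

namespace Pool.Agent.MP19e880

variable {V : Type} [Fintype V] [LinearOrder V] {k : Type} [Field k]

theorem pair_symm {S : Finset (Finset V)} {a b : V} (h : ({a, b} : Finset V) ∈ S) :
    ({b, a} : Finset V) ∈ S := by
  rwa [Finset.pair_comm]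

theorem Cld.sdiff {S : Finset (Finset V)} {L A : Finset V} (h : Cld S L A) : Cld S L (L \ A) := by
  refine ⟨Finset.sdiff_subset, ?_⟩
  intro x hx z hz
  rw [Finset.mem_sdiff] at hx hz
  have hzA : z ∈ A := by
    by_contra hc
    exact hz.2 (Finset.mem_sdiff.mpr ⟨hz.1, hc⟩)
  exact pair_symm (h.2 z hzA x (Finset.mem_sdiff.mpr hx))

theorem mem_cp {S : Finset (Finset V)} {L : Finset V} {a y : V} :
    y ∈ cp S L a ↔ y ∈ L ∧ ∀ A : Finset V, Cld S L A → a ∈ A → y ∈ A := by
  classical
  simp only [cp, Finset.mem_filter]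

theorem cp_sub {S : Finset (Finset V)} {L : Finset V} {a : V} : cp S L a ⊆ L := fun _ hy =>
  (mem_cp.mp hy).1

theorem mem_cp_self {S : Finset (Finset V)} {L : Finset V} {a : V} (ha : a ∈ L) :
    a ∈ cp S L a := mem_cp.mpr ⟨ha, fun _ _ h => h⟩

theorem cp_min {S : Finset (Finset V)} {L A : Finset V} {a : V} (hA : Cld S L A) (ha : a ∈ A) :
    cp S L a ⊆ A := fun _ hy => (mem_cp.mp hy).2 A hA ha

theorem cp_cld (S : Finset (Finset V)) (L : Finset V) (a : V) : Cld S L (cp S L a) := by
  refine ⟨cp_sub, ?_⟩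
  intro x hx z hz
  rw [Finset.mem_sdiff, mem_cp] at hz
  obtain ⟨hz1, hz2⟩ := hz
  push Not at hz2
  obtain ⟨A, hA, haA, hzA⟩ := hz2 hz1
  exact hA.2 x (cp_min hA haA hx) z (Finset.mem_sdiff.mpr ⟨hz1, hzA⟩)

theorem cp_con {S : Finset (Finset V)} {L : Finset V} {a : V} (haL : a ∈ L) :
    Con S (cp S L a) := by
  intro A hA hne hne2
  by_contra hcon
  push Not at hcon
  -- `A` and `cp \ A` are both closed in `L`
  have hcl : Cld S L A := by
    refine ⟨hA.trans cp_sub, ?_⟩
    intro x hx z hz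
    rw [Finset.mem_sdiff] at hz
    by_cases hzc : z ∈ cp S L a
    · exact hcon x hx z (Finset.mem_sdiff.mpr ⟨hzc, hz.2⟩)
    · exact (cp_cld S L a).2 x (hA hx) z (Finset.mem_sdiff.mpr ⟨hz.1, hzc⟩)
  have hcl2 : Cld S L (cp S L a \ A) := by
    refine ⟨Finset.sdiff_subset.trans cp_sub, ?_⟩
    intro x hx z hz
    rw [Finset.mem_sdiff] at hx hz
    by_cases hzc : z ∈ cp S L a
    · have hzA : z ∈ A := by
        by_contra h'
        exact hz.2 (Finset.mem_sdiff.mpr ⟨hzc, h'⟩)
      exact pair_symm (hcon z hzA x (Finset.mem_sdiff.mpr hx))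
    · exact (cp_cld S L a).2 x hx.1 z (Finset.mem_sdiff.mpr ⟨hz.1, hzc⟩)
  by_cases haA : a ∈ A
  · exact hne2 (Finset.Subset.antisymm hA (cp_min hcl haA))
  · obtain ⟨b, hb⟩ := hne
    have := cp_min hcl2 (Finset.mem_sdiff.mpr ⟨mem_cp_self haL, haA⟩) (hA hb)
    rw [Finset.mem_sdiff] at this
    exact this.2 hb

theorem con_sub_cp {S : Finset (Finset V)} {L D : Finset V} {a : V} (hD : Con S D) (hDL : D ⊆ L)
    (ha : a ∈ D) : D ⊆ cp S L a := by
  rcases con_split L (cp S L a) D hDL (cp_cld S L a).2 hD with h1 | h1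
  · exact h1
  · exact absurd (mem_cp_self (hDL ha)) (Finset.disjoint_left.mp h1 ha)

theorem cp_unique {S : Finset (Finset V)} {L A : Finset V} {a : V} (hA : Cld S L A)
    (hc : Con S A) (ha : a ∈ A) : cp S L a = A :=
  Finset.Subset.antisymm (cp_min hA ha) (con_sub_cp hc hA.1 ha)

theorem cp_eq {S : Finset (Finset V)} {L : Finset V} {a b : V} (ha : a ∈ L)
    (hb : b ∈ cp S L a) : cp S L b = cp S L a :=
  cp_unique (cp_cld S L a) (cp_con ha) hb

theorem cld_restrict {S : Finset (Finset V)} {L A B : Finset V} (hA : Cld S L A)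
    (hB : Cld S L B) (hBA : B ⊆ A) : Cld S A B :=
  ⟨hBA, fun x hx z hz => hB.2 x hx z (Finset.sdiff_subset_sdiff hA.1 (Finset.Subset.refl _) hz)⟩

theorem cp_restrict {S : Finset (Finset V)} {L A : Finset V} {a : V} (hA : Cld S L A)
    (ha : a ∈ A) : cp S A a = cp S L a :=
  cp_unique (cld_restrict hA (cp_cld S L a) (cp_min hA ha)) (cp_con (hA.1 ha))
    (mem_cp_self (hA.1 ha))

theorem cp_disj {S : Finset (Finset V)} {L : Finset V} {a b : V} (ha : a ∈ L) (hbL : b ∈ L)
    (hb : b ∉ cp S L a) : Disjoint (cp S L b) (cp S L a) := by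
  rw [Finset.disjoint_left]
  intro x hx hx2
  have h1 := cp_eq ha hx2
  have h2 := cp_eq hbL hx
  rw [h1] at h2
  rw [h2] at hb
  exact hb (mem_cp_self hbL)

theorem fac_sub {S : Finset (Finset V)} {d : ℕ} (hE : Eul S d) {τ P : Finset V}
    (hP : Fac S d τ P) : P ⊆ lv S τ := by
  intro y hy
  rw [mem_lv]
  refine ⟨fun h' => Finset.disjoint_left.mp hP.1 hy h', hE.down _ hP.2.1 _ ?_⟩
  intro x hx
  rw [Finset.mem_insert] at hx
  rw [Finset.mem_union]
  rcases hx with rfl | hx
  · exact Or.inl hy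
  · exact Or.inr hx

/-- The set `P \ A` spans a face whose link has the vertex set `A`. -/
theorem split {S : Finset (Finset V)} {d : ℕ} (h : HS k S d) (hE : Eul S d) {τ P A : Finset V}
    (hτ : τ ∈ S) (hP : Fac S d τ P) (hA : Cld S (lv S τ) A) :
    (P \ A) ∪ τ ∈ S ∧ lv S ((P \ A) ∪ τ) = A ∧ ((P \ A) ∪ τ).card + (P ∩ A).card = d := by
  have hPl := fac_sub hE hP
  have h1 : (P \ A) ∪ τ ∈ S := hE.down _ hP.2.1 _
    (Finset.union_subset_union Finset.sdiff_subset (Finset.Subset.refl _))
  refine ⟨h1, ?_, ?_⟩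
  · ext y
    rw [mem_lv_union hE τ (P \ A) hτ (Finset.sdiff_subset.trans hPl) h1 y]
    constructor
    · rintro ⟨hy1, hy2, hy3⟩
      by_contra hyA
      -- `y` is adjacent to all of `P`
      have hyP : y ∉ P := fun h' => hy2 (Finset.mem_sdiff.mpr ⟨h', hyA⟩)
      have hall : ∀ x ∈ P, ({y, x} : Finset V) ∈ S := by
        intro x hx
        by_cases hxA : x ∈ A
        · exact pair_symm (hA.2 x hxA y (Finset.mem_sdiff.mpr ⟨hy1, hyA⟩))
        · exact hy3 x (Finset.mem_sdiff.mpr ⟨hx, hxA⟩)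
      have hyy : ({y, y} : Finset V) ∈ S :=
        pair_mem hE _ ((mem_lv τ y).mp hy1).2 y y (Finset.mem_insert_self _ _)
          (Finset.mem_insert_self _ _)
      have hin : (insert y P) ∪ τ ∈ S := by
        apply lv_flag hE τ (insert y P) hτ
        · intro x hx
          rw [Finset.mem_insert] at hx
          rcases hx with rfl | hx
          · exact hy1
          · exact hPl hx
        · intro a ha b hb
          rw [Finset.mem_insert] at ha hb
          rcases ha with rfl | ha <;> rcases hb with rfl | hb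
          · exact hyy
          · exact hall b hb
          · exact pair_symm (hall a ha)
          · exact pair_mem hE _ hP.2.1 a b (Finset.mem_union_left _ ha)
              (Finset.mem_union_left _ hb)
      have hc := h.card_le _ hin
      have hyτ := ((mem_lv τ y).mp hy1).1
      rw [Finset.card_union_of_disjoint (by
        rw [Finset.disjoint_insert_left]; exact ⟨hyτ, hP.1⟩),
        Finset.card_insert_of_notMem hyP] at hc
      have := hP.2.2
      omega
    · intro hyA
      refine ⟨hA.1 hyA, fun h' => (Finset.mem_sdiff.mp h').2 hyA, ?_⟩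
      intro x hx
      rw [Finset.mem_sdiff] at hx
      exact hA.2 y hyA x (Finset.mem_sdiff.mpr ⟨hPl hx.1, hx.2⟩)
  · rw [Finset.card_union_of_disjoint (Finset.disjoint_of_subset_left Finset.sdiff_subset hP.1)]
    have := Finset.card_sdiff_add_card_inter P A
    have := hP.2.2
    omega

/-- The number of vertices of a component, in terms of its dimension. -/
theorem con_card {S : Finset (Finset V)} {d : ℕ} (h : HS k S d) (hE : Eul S d)
    {τ P A : Finset V} (hτ : τ ∈ S) (hP : Fac S d τ P) (hA : Cld S (lv S τ) A) (hc : Con S A)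
    (hne : A.Nonempty) : (A.card = 2 ∧ (P ∩ A).card = 1) ∨
      (5 ≤ A.card ∧ 2 ≤ (P ∩ A).card ∧ 3 * (P ∩ A).card ≤ A.card + 1) := by
  obtain ⟨h1, h2, h3⟩ := split h hE hτ hP hA
  have hirr : Irr S ((P \ A) ∪ τ) := by
    unfold Irr
    rw [h2]
    exact hc
  generalize hr : (P ∩ A).card = r at h3 ⊢
  match r, hr, h3 with
  | 0, _, h3 =>
    exfalso
    obtain ⟨y, hy⟩ := hne
    rw [← h2, mem_lv] at hy
    have := h.card_le _ hy.2
    rw [Finset.card_insert_of_notMem hy.1] at this
    omega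
  | 1, _, h3 =>
    left
    have := HS.two hE _ h1 h3
    rw [h2] at this
    exact ⟨this, rfl⟩
  | (r + 2), _, h3 =>
    right
    have := irr_bound h hE (r + 1) _ h1 h3 hirr
    rw [h2] at this
    omega

end Pool.Agent.MP19e880
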