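import Pool.Agent.Lib.MP_19e880_co.Few

/-!
Join components of the vertex set of a link, and the weights used in the double count.
-/

set_option autoImplicit false
set_option linter.unusedSectionVars false

namespace Pool.Agent.MP19e880

variable {V : Type} [Fintype V] [LinearOrder V]

/-- `A` is complete to `L \ A`. -/
def Cld (S : Finset (Finset V)) (L A : Finset V) : Prop :=
  A ⊆ L ∧ ∀ x ∈ A, ∀ z ∈ L \ A, ({x, z} : Finset V) ∈ S

open Classical in
/-- The join component of `a` in `L`: the component of `a` in the complement of the graph of `S`
on the vertex set `L`. -/
noncomputable def cp (S : Finset (Finset V)) (L : Finset V) (a : V) : Finset V :=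
  L.filter (fun y => ∀ A : Finset V, Cld S L A → a ∈ A → y ∈ A)

/-- The weight of a join component with `n` vertices. -/
def wt (n : ℕ) : ℕ := if n = 2 then 5 else if n = 5 then 1 else 0

/-- The sum of the weights of the join components of the vertices of the link of `τ`. -/
noncomputable def sm (S : Finset (Finset V)) (τ : Finset V) : ℕ :=
  ∑ a ∈ lv S τ, wt (cp S (lv S τ) a).card

end Pool.Agent.MP19e880
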