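import Pool.Agent.Lib.MP_19e880_co_LB.Defs

/-!
The double count and the join step.
-/

set_option autoImplicit false
set_option linter.unusedSectionVars false

namespace Pool.Agent.MP19e880

variable {V : Type} [Fintype V] [LinearOrder V] {k : Type} [Field k]

namespace FinAux

variable {S : Finset (Finset V)} {d : ℕ}

theorem deg_sum (hE : Eul S d) (σ : Finset V) :
    ∑ v ∈ lv S σ, (lv S (insert v σ)).card = 2 * fn S σ 2 := by
  have h := count S hE.down σ 1
  rw [← h]
  exact Finset.sum_congr rfl fun v _ => (fn_one S hE.down _).symm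

theorem mem_swap (h : HS k S d) (hE : Eul S d) (σ : Finset V) (a v : V) :
    (a ∈ lv S σ ∧ v ∈ lv S (insert a σ)) ↔ (a ∈ lv S (insert v σ) ∧ v ∈ lv S σ) := by
  constructor
  · rintro ⟨h1, h2⟩
    rw [mem_lv_insert h hE σ a v h1] at h2
    refine ⟨?_, h2.1⟩
    rw [mem_lv_insert h hE σ v a h2.1]
    exact ⟨h1, fun h' => h2.2.1 h'.symm, by rw [Finset.pair_comm]; exact h2.2.2⟩
  · rintro ⟨h2, h1⟩
    rw [mem_lv_insert h hE σ v a h1] at h2
    refine ⟨h2.1, ?_⟩
    rw [mem_lv_insert h hE σ a v h2.1]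
    exact ⟨h1, fun h' => h2.2.1 h'.symm, by rw [Finset.pair_comm]; exact h2.2.2⟩

/-- The irreducible case. -/
theorem irr_case (h : HS k S d) (hE : Eul S d)
    (hst : ∀ m : ℕ, ∀ σ ∈ S, σ.card + (m + 1) = d → Irr S σ → ∀ a ∈ lv S σ,
      40 * m + ∑ v ∈ lv S (insert a σ), wt (cp S (lv S (insert v σ)) a).card ≤
        15 * (lv S (insert a σ)).card + sm S (insert a σ) + 30)
    (m : ℕ) (σ : Finset V) (hσ : σ ∈ S) (hd : σ.card + (m + 1) = d) (hirr : Irr S σ) :
    4 * m * (lv S σ).card ≤ 3 * fn S σ 2 + 3 * (lv S σ).card := by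
  have h1 : ∑ a ∈ lv S σ, (40 * m +
      ∑ v ∈ lv S (insert a σ), wt (cp S (lv S (insert v σ)) a).card) ≤
      ∑ a ∈ lv S σ, (15 * (lv S (insert a σ)).card + sm S (insert a σ) + 30) :=
    Finset.sum_le_sum fun a ha => hst m σ hσ hd hirr a ha
  have h2 : ∑ a ∈ lv S σ, ∑ v ∈ lv S (insert a σ), wt (cp S (lv S (insert v σ)) a).card =
      ∑ v ∈ lv S σ, sm S (insert v σ) := by
    unfold sm
    exact Finset.sum_comm' fun a v => mem_swap h hE σ a v
  have h4 : ∑ x ∈ lv S σ, 15 * (lv S (insert x σ)).card = 15 * (2 * fn S σ 2) := by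
    rw [← Finset.mul_sum, deg_sum hE σ]
  rw [Finset.sum_add_distrib, h2, Finset.sum_add_distrib, Finset.sum_add_distrib,
    h4, Finset.sum_const, Finset.sum_const, smul_eq_mul, smul_eq_mul] at h1
  have h3 : (lv S σ).card * (40 * m) = 10 * (4 * m * (lv S σ).card) := by ring
  rw [h3] at h1
  omega

/-- The degree bound. -/
theorem deg_bound (h : HS k S d) (hE : Eul S d) (m : ℕ) (σ : Finset V)
    (hd : σ.card + (m + 1) = d) : m * (lv S σ).card ≤ fn S σ 2 := by
  have h1 : ∑ v ∈ lv S σ, 2 * m ≤ ∑ v ∈ lv S σ, (lv S (insert v σ)).card := by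
    refine Finset.sum_le_sum fun v hv => ?_
    rw [mem_lv] at hv
    exact lv_two_mul h m (insert v σ) hv.2 (by rw [Finset.card_insert_of_notMem hv.1]; omega)
  rw [deg_sum hE σ, Finset.sum_const, smul_eq_mul] at h1
  have h2 : (lv S σ).card * (2 * m) = 2 * (m * (lv S σ).card) := by ring
  rw [h2] at h1
  omega

/-- The factor of a join. -/
theorem factor (h : HS k S d) (hE : Eul S d) (σ : Finset V) (hσ : σ ∈ S) (A : Finset V)
    (hA1 : A ⊆ lv S σ)
    (hA4 : ∀ a ∈ A, ∀ b ∈ lv S σ \ A, ({a, b} : Finset V) ∈ S)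
    (P : Finset V) (hP1 : Disjoint P σ) (hP2 : P ∪ σ ∈ S) (hP3 : P.card + σ.card = d) :
    (P \ A) ∪ σ ∈ S ∧ lv S ((P \ A) ∪ σ) = A ∧
      (∀ v ∈ A, (lv S (insert v σ)).card =
        (lv S (insert v ((P \ A) ∪ σ))).card + (lv S σ \ A).card) ∧
      (∀ y ∈ lv S σ, (∀ a ∈ P, ({y, a} : Finset V) ∈ S) → y ∈ P) := by
  have hPlv : P ⊆ lv S σ := by
    intro y hy
    rw [mem_lv]
    exact ⟨Finset.disjoint_left.mp hP1 hy, hE.down _ hP2 _
      (Finset.insert_subset (Finset.mem_union_left _ hy) Finset.subset_union_right)⟩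
  have hmax : ∀ y ∈ lv S σ, (∀ a ∈ P, ({y, a} : Finset V) ∈ S) → y ∈ P := by
    intro y hy hya
    by_contra hyP
    have h1 : insert y P ∪ σ ∈ S := by
      refine lv_flag hE σ (insert y P) hσ (Finset.insert_subset hy hPlv) ?_
      intro a ha b hb
      rw [Finset.mem_insert] at ha hb
      rcases ha with rfl | ha <;> rcases hb with rfl | hb
      · exact pair_mem hE _ ((mem_lv σ _).mp hy).2 _ _ (Finset.mem_insert_self _ _)
          (Finset.mem_insert_self _ _)
      · exact hya b hb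
      · rw [Finset.pair_comm]; exact hya a ha
      · exact pair_mem hE _ hP2 a b (Finset.mem_union_left _ ha) (Finset.mem_union_left _ hb)
    have h2 := hE.le _ h1
    rw [Finset.insert_union, Finset.card_insert_of_notMem (by
      rw [Finset.mem_union, not_or]
      exact ⟨hyP, ((mem_lv σ _).mp hy).1⟩), Finset.card_union_of_disjoint hP1] at h2
    omega
  have hS1 : (P \ A) ∪ σ ∈ S :=
    hE.down _ hP2 _ (Finset.union_subset_union_left Finset.sdiff_subset)
  have hlv : lv S ((P \ A) ∪ σ) = A := by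
    ext y
    rw [mem_lv]
    constructor
    · rintro ⟨h1, h2⟩
      rw [Finset.mem_union, not_or] at h1
      have hyL : y ∈ lv S σ := by
        rw [mem_lv]
        exact ⟨h1.2, hE.down _ h2 _ (Finset.insert_subset_insert _ Finset.subset_union_right)⟩
      by_contra hyA
      have hyP : y ∈ P := by
        refine hmax y hyL fun a ha => ?_
        by_cases haA : a ∈ A
        · rw [Finset.pair_comm]
          exact hA4 a haA y (Finset.mem_sdiff.2 ⟨hyL, hyA⟩)
        · exact pair_mem hE _ h2 y a (Finset.mem_insert_self _ _)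
            (Finset.mem_insert_of_mem (Finset.mem_union_left _ (Finset.mem_sdiff.2 ⟨ha, haA⟩)))
      exact h1.1 (Finset.mem_sdiff.2 ⟨hyP, hyA⟩)
    · intro hy
      have hyL := hA1 hy
      constructor
      · rw [Finset.mem_union, not_or]
        exact ⟨fun h' => (Finset.mem_sdiff.1 h').2 hy, ((mem_lv σ _).mp hyL).1⟩
      · rw [← Finset.insert_union]
        refine lv_flag hE σ (insert y (P \ A)) hσ
          (Finset.insert_subset hyL (Finset.sdiff_subset.trans hPlv)) ?_
        intro a ha b hb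
        rw [Finset.mem_insert] at ha hb
        rcases ha with rfl | ha <;> rcases hb with rfl | hb
        · exact pair_mem hE _ ((mem_lv σ _).mp hyL).2 _ _ (Finset.mem_insert_self _ _)
            (Finset.mem_insert_self _ _)
        · rw [Finset.mem_sdiff] at hb
          exact hA4 _ hy b (Finset.mem_sdiff.2 ⟨hPlv hb.1, hb.2⟩)
        · rw [Finset.mem_sdiff] at ha
          rw [Finset.pair_comm]
          exact hA4 _ hy a (Finset.mem_sdiff.2 ⟨hPlv ha.1, ha.2⟩)
        · rw [Finset.mem_sdiff] at ha hb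
          exact pair_mem hE _ hP2 a b (Finset.mem_union_left _ ha.1)
            (Finset.mem_union_left _ hb.1)
  refine ⟨hS1, hlv, ?_, hmax⟩
  intro v hv
  have hvL := hA1 hv
  have hv1 : v ∈ lv S ((P \ A) ∪ σ) := by rw [hlv]; exact hv
  have hdisj : Disjoint (lv S (insert v ((P \ A) ∪ σ))) (lv S σ \ A) := by
    rw [Finset.disjoint_left]
    intro y hy hy2
    have := lv_insert_sub hE _ v hy
    rw [hlv] at this
    exact (Finset.mem_sdiff.1 hy2).2 this
  rw [← Finset.card_union_of_disjoint hdisj]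
  congr 1
  ext y
  rw [Finset.mem_union, mem_lv_insert h hE σ v y hvL, mem_lv_insert h hE _ v y hv1, hlv,
    Finset.mem_sdiff]
  constructor
  · rintro ⟨h1, h2, h3⟩
    by_cases hyA : y ∈ A
    · exact Or.inl ⟨hyA, h2, h3⟩
    · exact Or.inr ⟨h1, hyA⟩
  · rintro (⟨h1, h2, h3⟩ | ⟨h1, h2⟩)
    · exact ⟨hA1 h1, h2, h3⟩
    · exact ⟨h1, fun h' => h2 (h' ▸ hv), hA4 v hv y (Finset.mem_sdiff.2 ⟨h1, h2⟩)⟩

end FinAux

open FinAux

/-- A non-irreducible link is a join of two spheres: the numbers of vertices and edges. -/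
theorem join_counts {S : Finset (Finset V)} {d : ℕ} (h : HS k S d) (hE : Eul S d)
    (m : ℕ) (σ : Finset V) (hσ : σ ∈ S) (hd : σ.card + m = d) (hirr : ¬ Irr S σ) :
    ∃ τ ∈ S, ∃ ρ ∈ S, ∃ m1 m2 : ℕ, 1 ≤ m1 ∧ 1 ≤ m2 ∧ m1 + m2 = m ∧ τ.card + m1 = d ∧
      ρ.card + m2 = d ∧ fn S σ 1 = fn S τ 1 + fn S ρ 1 ∧
      fn S σ 2 = fn S τ 2 + fn S ρ 2 + fn S τ 1 * fn S ρ 1 := by
  unfold Irr at hirr
  push Not at hirr
  obtain ⟨A, hA1, hA2, hA3, hA4⟩ := hirr
  obtain ⟨P, hP1, hP2, hP3⟩ := exists_facet h σ hσ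
  have hB1 : lv S σ \ A ⊆ lv S σ := Finset.sdiff_subset
  have hBB : lv S σ \ (lv S σ \ A) = A := by
    rw [Finset.sdiff_sdiff_eq_self hA1]
  have hB4 : ∀ a ∈ lv S σ \ A, ∀ b ∈ lv S σ \ (lv S σ \ A), ({a, b} : Finset V) ∈ S := by
    intro a ha b hb
    rw [hBB] at hb
    rw [Finset.pair_comm]
    exact hA4 b hb a ha
  obtain ⟨f1, f2, f3, hmax⟩ := factor h hE σ hσ A hA1 hA4 P hP1 hP2 hP3
  obtain ⟨g1, g2, g3, _⟩ := factor h hE σ hσ (lv S σ \ A) hB1 hB4 P hP1 hP2 hP3
  have hPlv : P ⊆ lv S σ := by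
    intro y hy
    rw [mem_lv]
    exact ⟨Finset.disjoint_left.mp hP1 hy, hE.down _ hP2 _
      (Finset.insert_subset (Finset.mem_union_left _ hy) Finset.subset_union_right)⟩
  have hPB : P \ (lv S σ \ A) = P ∩ A := by
    ext y
    rw [Finset.mem_sdiff, Finset.mem_sdiff, Finset.mem_inter]
    constructor
    · rintro ⟨h1, h2⟩
      refine ⟨h1, ?_⟩
      by_contra h3
      exact h2 ⟨hPlv h1, h3⟩
    · rintro ⟨h1, h2⟩
      exact ⟨h1, fun h3 => h3.2 h2⟩
  rw [hPB] at g1 g2 g3
  rw [hBB] at g3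
  -- the two parameters
  obtain ⟨b0, hb0⟩ : (lv S σ \ A).Nonempty := by
    rw [Finset.sdiff_nonempty]
    intro h'
    exact hA3 (Finset.Subset.antisymm hA1 h')
  have hPA : (P ∩ A).Nonempty := by
    by_contra hcon
    rw [Finset.not_nonempty_iff_eq_empty] at hcon
    obtain ⟨a, ha⟩ := hA2
    have haP : a ∈ P := by
      refine hmax a (hA1 ha) ?_
      intro b hb
      refine hA4 a ha b ?_
      rw [Finset.mem_sdiff]
      refine ⟨hPlv hb, ?_⟩
      intro hbA
      have : b ∈ P ∩ A := Finset.mem_inter.mpr ⟨hb, hbA⟩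
      rw [hcon] at this
      exact absurd this (Finset.notMem_empty _)
    have : a ∈ P ∩ A := Finset.mem_inter.mpr ⟨haP, ha⟩
    rw [hcon] at this
    exact absurd this (Finset.notMem_empty _)
  have hPB2 : (P \ A).Nonempty := by
    by_contra hcon
    rw [Finset.not_nonempty_iff_eq_empty, Finset.sdiff_eq_empty_iff_subset] at hcon
    have hbP : b0 ∈ P := by
      refine hmax b0 (Finset.mem_sdiff.mp hb0).1 ?_
      intro a ha
      rw [Finset.pair_comm]
      exact hA4 a (hcon ha) b0 hb0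
    exact (Finset.mem_sdiff.mp hb0).2 (hcon hbP)
  have hcP : (P ∩ A).card + (P \ A).card = P.card := Finset.card_inter_add_card_sdiff P A
  have hc1 : ((P \ A) ∪ σ).card = (P \ A).card + σ.card :=
    Finset.card_union_of_disjoint (Finset.disjoint_of_subset_left Finset.sdiff_subset hP1)
  have hc2 : ((P ∩ A) ∪ σ).card = (P ∩ A).card + σ.card :=
    Finset.card_union_of_disjoint
      (Finset.disjoint_of_subset_left Finset.inter_subset_left hP1)
  have hpos1 := hPA.card_pos
  have hpos2 := hPB2.card_pos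
  have hn1 : fn S ((P \ A) ∪ σ) 1 = A.card := by rw [fn_one S hE.down, f2]
  have hn2' : fn S ((P ∩ A) ∪ σ) 1 = (lv S σ \ A).card := by rw [fn_one S hE.down, g2]
  have hsum := deg_sum hE σ
  have hs1 := deg_sum hE ((P \ A) ∪ σ)
  have hs2 := deg_sum hE ((P ∩ A) ∪ σ)
  rw [f2] at hs1
  rw [g2] at hs2
  have hsplit : ∑ v ∈ lv S σ, (lv S (insert v σ)).card =
      ∑ v ∈ A, (lv S (insert v σ)).card + ∑ v ∈ lv S σ \ A, (lv S (insert v σ)).card := by
    rw [add_comm]
    exact (Finset.sum_sdiff hA1).symm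
  rw [hsplit, Finset.sum_congr rfl f3, Finset.sum_congr rfl g3, Finset.sum_add_distrib,
    Finset.sum_add_distrib, hs1, hs2, Finset.sum_const, Finset.sum_const, smul_eq_mul,
    smul_eq_mul] at hsum
  have hcard : (lv S σ).card = A.card + (lv S σ \ A).card := by
    rw [add_comm]
    exact (Finset.card_sdiff_add_card_eq_card hA1).symm
  refine ⟨(P \ A) ∪ σ, f1, (P ∩ A) ∪ σ, g1, (P ∩ A).card, (P \ A).card, hpos1, hpos2,
    by omega, by omega, by omega, ?_, ?_⟩
  · rw [fn_one S hE.down σ, hn1, hn2', hcard]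
  · rw [hn1, hn2']
    have e : (lv S σ \ A).card * A.card = A.card * (lv S σ \ A).card := Nat.mul_comm _ _
    rw [e] at hsum
    omega

/-- MODULE FIN. `hA` is Lemma A, `hst` is inequality (*). -/
theorem edge_of_star {S : Finset (Finset V)} {d : ℕ} (h : HS k S d) (hE : Eul S d)
    (hA : ∀ M : ℕ, ∀ τ ∈ S, τ.card + M = d → 40 * M ≤ 15 * (lv S τ).card + sm S τ)
    (hst : ∀ m : ℕ, ∀ σ ∈ S, σ.card + (m + 1) = d → Irr S σ → ∀ a ∈ lv S σ,
      40 * m + ∑ v ∈ lv S (insert a σ), wt (cp S (lv S (insert v σ)) a).card ≤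
        15 * (lv S (insert a σ)).card + sm S (insert a σ) + 30) :
    ∀ m : ℕ, ∀ σ ∈ S, σ.card + m = d →
      (4 * (m : ℤ) - 7) * fn S σ 1 ≤ 3 * fn S σ 2 + 2 * m * (m - 4) := by
  intro m
  induction m using Nat.strong_induction_on with
  | _ m ih =>
    intro σ hσ hd
    have hfn1 : fn S σ 1 = (lv S σ).card := fn_one S hE.down σ
    have hn2 := lv_two_mul h m σ hσ hd
    rcases Nat.eq_zero_or_pos m with hm0 | hm0
    · subst hm0
      push_cast
      have h1 : (0 : ℤ) ≤ fn S σ 1 := by positivity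
      have h2 : (0 : ℤ) ≤ fn S σ 2 := by positivity
      linarith
    obtain ⟨m', rfl⟩ : ∃ m', m = m' + 1 := ⟨m - 1, by omega⟩
    rcases Nat.lt_or_ge (m' + 1) 5 with hm | hm
    · -- small dimension
      have h1 := deg_bound h hE m' σ hd
      have h1' : (m' : ℤ) * (lv S σ).card ≤ fn S σ 2 := by exact_mod_cast h1
      have hn2' : 2 * ((m' : ℤ) + 1) ≤ (lv S σ).card := by exact_mod_cast hn2
      rw [hfn1]
      have hm4 : (m' : ℤ) ≤ 3 := by exact_mod_cast (by omega : m' ≤ 3)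
      push_cast
      nlinarith [mul_nonneg (sub_nonneg.2 hm4) (sub_nonneg.2 hn2')]
    · by_cases hirr : Irr S σ
      · have h1 := irr_case h hE hst m' σ hσ hd hirr
        have h1' : 4 * (m' : ℤ) * (lv S σ).card ≤ 3 * fn S σ 2 + 3 * (lv S σ).card := by
          exact_mod_cast h1
        rw [hfn1]
        have hm4 : (4 : ℤ) ≤ m' := by exact_mod_cast (by omega : 4 ≤ m')
        push_cast
        nlinarith
      · obtain ⟨τ, hτ, ρ, hρ, m1, m2, hm1, hm2, hmm, hc1, hc2, hn1, he⟩ :=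
          join_counts h hE (m' + 1) σ hσ hd hirr
        have i1 := ih m1 (by omega) τ hτ hc1
        have i2 := ih m2 (by omega) ρ hρ hc2
        have j1 := lv_two_mul h m1 τ hτ hc1
        have j2 := lv_two_mul h m2 ρ hρ hc2
        rw [← fn_one S hE.down] at j1 j2
        rw [hn1, he, ← hmm]
        generalize fn S τ 1 = n1 at *
        generalize fn S ρ 1 = n2 at *
        generalize fn S τ 2 = e1 at *
        generalize fn S ρ 2 = e2 at *
        have b1 : (0 : ℤ) ≤ n1 - 2 * m1 := by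
          have : (2 : ℤ) * m1 ≤ n1 := by exact_mod_cast j1
          linarith
        have b2 : (0 : ℤ) ≤ n2 - 2 * m2 := by
          have : (2 : ℤ) * m2 ≤ n2 := by exact_mod_cast j2
          linarith
        have p1 : (0 : ℤ) ≤ m1 := by positivity
        have p2 : (0 : ℤ) ≤ m2 := by positivity
        have q1 := mul_nonneg p1 b2
        have q2 := mul_nonneg p2 b1
        have q3 := mul_nonneg b1 b2
        push_cast
        linarith

end Pool.Agent.MP19e880
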