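import Mathlib

/-!
The coefficients `γ 0, γ 1, γ 2` of the gamma expansion.
-/

set_option autoImplicit false

namespace Pool.Agent.MP19e880

open Polynomial

theorem coeff_one_sub_pow (n : ℕ) : ((1 - X : ℤ[X]) ^ n).coeff 0 = 1 ∧
    ((1 - X : ℤ[X]) ^ n).coeff 1 = -(n : ℤ) ∧
    2 * ((1 - X : ℤ[X]) ^ n).coeff 2 = (n : ℤ) * (n - 1) := by
  induction n with
  | zero =>
    simp [coeff_one]
  | succ n ih =>
    obtain ⟨h0, h1, h2⟩ := ih
    have e0 : ((1 - X : ℤ[X]) ^ (n + 1)).coeff 0 = ((1 - X : ℤ[X]) ^ n).coeff 0 := by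
      rw [pow_succ, mul_sub, mul_one, coeff_sub, coeff_mul_X_zero, sub_zero]
    have e1 : ∀ j, ((1 - X : ℤ[X]) ^ (n + 1)).coeff (j + 1) =
        ((1 - X : ℤ[X]) ^ n).coeff (j + 1) - ((1 - X : ℤ[X]) ^ n).coeff j := by
      intro j
      rw [pow_succ, mul_sub, mul_one, coeff_sub, coeff_mul_X]
    refine ⟨by rw [e0, h0], ?_, ?_⟩
    · rw [e1 0, h0, zero_add, h1]
      push_cast
      ring
    · rw [e1 1, h1, mul_sub, show (1 + 1 : ℕ) = 2 from rfl, h2]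
      push_cast
      ring

theorem coeff_term (a : ℤ) (q : ℤ[X]) (j i : ℕ) :
    (C a * X ^ j * q).coeff i = if j ≤ i then a * q.coeff (i - j) else 0 := by
  rw [mul_assoc, coeff_C_mul, coeff_X_pow_mul']
  split_ifs
  · rfl
  · rw [mul_zero]

/-- `γ 1` and `γ 2` in terms of the face numbers. -/
theorem gamma_one_two (d : ℕ) (hd : 4 ≤ d) (f : ℕ → ℤ) (γ : ℕ → ℤ) (hf : f 0 = 1)
    (h : ∑ j ∈ Finset.range (d + 1), C (f j) * X ^ j * (1 - X) ^ (d - j) =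
      ∑ i ∈ Finset.range (d / 2 + 1), C (γ i) * X ^ i * (1 + X) ^ (d - 2 * i)) :
    γ 1 = f 1 - 2 * d ∧ γ 2 = f 2 - (2 * d - 3) * f 1 + 2 * d * (d - 2) := by
  have hc : ∀ i, ∑ j ∈ Finset.range (d + 1),
      (if j ≤ i then f j * ((1 - X : ℤ[X]) ^ (d - j)).coeff (i - j) else 0) =
      ∑ j ∈ Finset.range (d / 2 + 1),
      (if j ≤ i then γ j * ((1 + X : ℤ[X]) ^ (d - 2 * j)).coeff (i - j) else 0) := by
    intro i
    have := congrArg (fun p => coeff p i) h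
    simp only [finsetSum_coeff, coeff_term] at this
    exact this
  obtain ⟨e, rfl⟩ : ∃ e, d = e + 4 := ⟨d - 4, by omega⟩
  have h2 : (e + 4) / 2 = e / 2 + 2 := by omega
  rw [h2] at hc
  have c0 := hc 0
  have c1 := hc 1
  have c2 := hc 2
  simp only [Finset.sum_range_succ' _ (e + 4), Finset.sum_range_succ' _ (e + 3),
    Finset.sum_range_succ' _ (e + 2), Finset.sum_range_succ' _ (e / 2 + 2),
    Finset.sum_range_succ' _ (e / 2 + 1), Finset.sum_range_succ' _ (e / 2)] at c0 c1 c2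
  have z0 : ∀ (i : ℕ), i < 3 → ∀ (g : ℕ → ℤ) (n : ℕ),
      ∑ j ∈ Finset.range n, (if j + 1 + 1 + 1 ≤ i then g j else 0) = 0 := by
    intro i hi g n
    refine Finset.sum_eq_zero fun j _ => ?_
    rw [if_neg (by omega)]
  rw [z0 0 (by omega), z0 0 (by omega)] at c0
  rw [z0 1 (by omega), z0 1 (by omega)] at c1
  rw [z0 2 (by omega), z0 2 (by omega)] at c2
  obtain ⟨a0, a1, a2⟩ := coeff_one_sub_pow (e + 4)
  obtain ⟨b0, b1, b2⟩ := coeff_one_sub_pow (e + 3)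
  obtain ⟨d0, d1, d2⟩ := coeff_one_sub_pow (e + 2)
  have p0 : ∀ n : ℕ, ((1 + X : ℤ[X]) ^ n).coeff 0 = 1 := fun n => by
    rw [coeff_one_add_X_pow]; simp
  have p1 : ∀ n : ℕ, ((1 + X : ℤ[X]) ^ n).coeff 1 = n := fun n => by
    rw [coeff_one_add_X_pow]; simp
  have p2 : ∀ n : ℕ, 2 * ((1 + X : ℤ[X]) ^ n).coeff 2 = (n : ℤ) * (n - 1) := by
    intro n
    rw [coeff_one_add_X_pow]
    have h3 := Nat.choose_two_right n
    have h4 : 2 * n.choose 2 = n * (n - 1) := by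
      rw [h3]
      exact Nat.mul_div_cancel' (Nat.even_mul_pred_self n).two_dvd
    rcases n with _ | n
    · simp
    · have h5 : ((2 * (n + 1).choose 2 : ℕ) : ℤ) = (((n + 1) * (n + 1 - 1) : ℕ) : ℤ) := by
        rw [h4]
      push_cast at h5 ⊢
      rw [h5]
      simp
  norm_num at c0 c1 c2
  have e2 : e + 4 - 2 = e + 2 := by omega
  rw [e2] at c1 c2
  have q2 := p2 (e + 4)
  rw [hf, a0, p0, mul_one, mul_one] at c0
  rw [hf, b0, a1, p0, p1, ← c0] at c1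
  rw [hf, d0, b1, p0, p1, ← c0] at c2
  push_cast at c1 c2 a2 q2 ⊢
  have g1 : γ 1 = f 1 - 2 * (e + 4) := by linarith
  refine ⟨g1, ?_⟩
  rw [g1] at c2
  nlinarith [c2, a2, q2]

end Pool.Agent.MP19e880
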