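import Pool.Agent.Lib.MP_19e880_co_LB.Star

/-!
The double count: the number of edges of an irreducible link.
-/

set_option autoImplicit false
set_option linter.unusedSectionVars false

namespace Pool.Agent.MP19e880

variable {V : Type} [Fintype V] [LinearOrder V] {k : Type} [Field k]

theorem irr_edge {S : Finset (Finset V)} {d : ℕ} (h : HS k S d) (hE : Eul S d) :
    ∀ m : ℕ, ∀ σ ∈ S, σ.card + (m + 1) = d → Irr S σ →
      (4 * ((m : ℤ) + 1) - 7) * fn S σ 1 ≤ 3 * fn S σ 2 := by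
  intro m σ hσ hm hirr
  have h1 : ∑ a ∈ lv S σ, (40 * m + ∑ v ∈ lv S (insert a σ), wt (Qc S σ a v).card) ≤
      ∑ a ∈ lv S σ, (15 * (lv S (insert a σ)).card + sm S (insert a σ) + 30) :=
    Finset.sum_le_sum fun a ha => star h hE hσ hm hirr ha
  have h2 : ∑ a ∈ lv S σ, ∑ v ∈ lv S (insert a σ), wt (Qc S σ a v).card =
      ∑ v ∈ lv S σ, ∑ a ∈ lv S (insert v σ), wt (Qc S σ a v).card := by
    refine Finset.sum_comm' ?_
    intro a v
    constructor
    · rintro ⟨ha, hv⟩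
      exact ⟨a_mem h hE ha hv, lv_insert_sub hE σ a hv⟩
    · rintro ⟨ha, hv⟩
      exact ⟨lv_insert_sub hE σ v ha, a_mem h hE hv ha⟩
  have h3 : ∑ v ∈ lv S σ, ∑ a ∈ lv S (insert v σ), wt (Qc S σ a v).card =
      ∑ v ∈ lv S σ, sm S (insert v σ) := rfl
  have h4 := count S hE.down σ 1
  rw [Finset.sum_congr rfl (fun v _ => fn_one S hE.down (insert v σ))] at h4
  have h15 : ∑ a ∈ lv S σ, 15 * (lv S (insert a σ)).card =
      15 * ∑ a ∈ lv S σ, (lv S (insert a σ)).card := (Finset.mul_sum _ _ _).symm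
  rw [Finset.sum_add_distrib, Finset.sum_add_distrib, Finset.sum_add_distrib, h2, h3,
    h15, h4, Finset.sum_const, Finset.sum_const, smul_eq_mul, smul_eq_mul,
    ← fn_one S hE.down] at h1
  have h5 : (4 * m : ℤ) * fn S σ 1 ≤ 3 * fn S σ 2 + 3 * fn S σ 1 := by
    have : 40 * m * fn S σ 1 ≤ 30 * fn S σ 2 + 30 * fn S σ 1 := by
      nlinarith
    have h6 : ((40 * m * fn S σ 1 : ℕ) : ℤ) ≤ ((30 * fn S σ 2 + 30 * fn S σ 1 : ℕ) : ℤ) := by
      exact_mod_cast this
    push_cast at h6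
    linarith
  linarith

end Pool.Agent.MP19e880
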