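import Pool.Agent.Lib.MP_19e880_co_LB.Defs

/-!
Join criterion via strong connectivity.
-/

set_option autoImplicit false
set_option linter.unusedSectionVars false

namespace Pool.Agent.MP19e880

variable {V : Type} [Fintype V] [LinearOrder V] {k : Type} [Field k]

namespace JCrit

/-- Gluing two faces of the link of `σ` which are complete to one another. -/
theorem glue {S : Finset (Finset V)} {d : ℕ} (hE : Eul S d) {σ A B : Finset V}
    (hA : A ∪ σ ∈ S) (hB : B ∪ σ ∈ S) (hc : ∀ a ∈ A, ∀ b ∈ B, ({a, b} : Finset V) ∈ S) :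
    A ∪ B ∪ σ ∈ S := by
  apply hE.flag
  have key : ∀ x ∈ A ∪ B ∪ σ, ∀ y ∈ A ∪ B ∪ σ, x ∈ A → ({x, y} : Finset V) ∈ S := by
    intro x _ y hy hxA
    rw [Finset.mem_union, Finset.mem_union] at hy
    rcases hy with (hy | hy) | hy
    · exact pair_mem hE _ hA x y (Finset.mem_union_left _ hxA) (Finset.mem_union_left _ hy)
    · exact hc x hxA y hy
    · exact pair_mem hE _ hA x y (Finset.mem_union_left _ hxA) (Finset.mem_union_right _ hy)
  intro x hx y hy
  by_cases hxA : x ∈ A
  · exact key x hx y hy hxA
  · by_cases hyA : y ∈ A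
    · rw [Finset.pair_comm]
      exact key y hy x hx hyA
    · have hx' : x ∈ B ∪ σ := by
        rw [Finset.mem_union, Finset.mem_union] at hx
        rw [Finset.mem_union]
        tauto
      have hy' : y ∈ B ∪ σ := by
        rw [Finset.mem_union, Finset.mem_union] at hy
        rw [Finset.mem_union]
        tauto
      exact pair_mem hE _ hB x y hx' hy'

theorem sub_lv_disj {S : Finset (Finset V)} {σ A : Finset V} (hA : A ⊆ lv S σ) :
    Disjoint A σ := by
  rw [Finset.disjoint_left]
  intro x hx hxσ
  exact ((mem_lv σ x).mp (hA hx)).1 hxσ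

theorem card3 {A B σ : Finset V} (h1 : Disjoint A B) (h2 : Disjoint A σ) (h3 : Disjoint B σ) :
    (A ∪ B ∪ σ).card = A.card + B.card + σ.card := by
  rw [Finset.card_union_of_disjoint (Finset.disjoint_union_left.mpr ⟨h2, h3⟩),
    Finset.card_union_of_disjoint h1]

theorem fac_sub_lv {S : Finset (Finset V)} {d : ℕ} (hE : Eul S d) {σ F : Finset V}
    (hF : Fac S d σ F) : F ⊆ lv S σ := by
  intro x hx
  rw [mem_lv]
  refine ⟨Finset.disjoint_left.mp hF.1 hx, hE.down _ hF.2.1 _ ?_⟩
  intro y hy
  rw [Finset.mem_insert] at hy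
  rcases hy with rfl | hy
  · exact Finset.mem_union_left _ hx
  · exact Finset.mem_union_right _ hy

end JCrit

open JCrit in
/-- MODULE J. -/
theorem join_crit {S : Finset (Finset V)} {d : ℕ} (h : HS k S d) (hE : Eul S d)
    (σ : Finset V) (hσ : σ ∈ S) (a : V) (Q E η : Finset V)
    (haQ : a ∈ Q) (hQ : Q ⊆ lv S σ) (hE1 : E ⊆ lv S σ) (hQE : Disjoint Q E)
    (hN : lv S (insert a σ) ⊆ Q ∪ E)
    (hc : ∀ q ∈ Q, ∀ e ∈ E, ({q, e} : Finset V) ∈ S)
    (hη : η ⊆ E) (hησ : η ∪ σ ∈ S) (hlk : lv S (η ∪ σ) = Q) : lv S σ = Q ∪ E := by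
  have haη : a ∈ lv S (η ∪ σ) := by rw [hlk]; exact haQ
  obtain ⟨ha1, ha2⟩ := (mem_lv _ a).mp haη
  obtain ⟨P0, hP1, hP2, hP3⟩ := exists_facet h (insert a (η ∪ σ)) ha2
  rw [Finset.card_insert_of_notMem ha1] at hP3
  have haP0 : a ∉ P0 := fun h' =>
    Finset.disjoint_left.mp hP1 h' (Finset.mem_insert_self _ _)
  have hησd : Disjoint η σ := sub_lv_disj (hη.trans hE1)
  set τ : Finset V := insert a P0 with hτdef
  have hτS : τ ∪ (η ∪ σ) ∈ S := by
    have h1 : τ ∪ (η ∪ σ) = P0 ∪ insert a (η ∪ σ) := by
      ext x
      simp only [hτdef, Finset.mem_union, Finset.mem_insert]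
      tauto
    rw [h1]
    exact hP2
  have hτQ : τ ⊆ Q := by
    intro t ht
    rw [← hlk, mem_lv]
    constructor
    · intro h'
      rw [hτdef, Finset.mem_insert] at ht
      rcases ht with rfl | ht
      · exact ha1 h'
      · exact Finset.disjoint_left.mp hP1 ht (Finset.mem_insert_of_mem h')
    · refine hE.down _ hτS _ ?_
      intro y hy
      rw [Finset.mem_insert] at hy
      rcases hy with rfl | hy
      · exact Finset.mem_union_left _ ht
      · exact Finset.mem_union_right _ hy
  have hτcard : τ.card + η.card + σ.card = d := by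
    rw [hτdef, Finset.card_insert_of_notMem haP0]
    rw [Finset.card_union_of_disjoint hησd] at hP3
    omega
  have hτσ : Disjoint τ σ := sub_lv_disj (hτQ.trans hQ)
  have hτη : Disjoint τ η := (hQE.mono_left hτQ).mono_right hη
  have hτσS : τ ∪ σ ∈ S := hE.down _ hτS _
    (Finset.union_subset_union_right Finset.subset_union_right)
  have haτ : a ∈ τ := Finset.mem_insert_self _ _
  have hF0 : Fac S d σ (τ ∪ η) := by
    refine ⟨Finset.disjoint_union_left.mpr ⟨hτσ, hησd⟩, ?_, ?_⟩
    · rw [Finset.union_assoc]
      exact hτS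
    · rw [Finset.card_union_of_disjoint hτη]
      omega
  have hP0' : τ ∪ η ⊆ Q ∪ E := Finset.union_subset_union hτQ hη
  -- the main step
  have hcl : ∀ (R : Finset V) (u u' : V), u ∉ R → u' ∉ R → Fac S d σ (insert u R) →
      Fac S d σ (insert u' R) → insert u R ⊆ Q ∪ E → insert u' R ⊆ Q ∪ E := by
    intro R u u' hu hu' hF hF' hsub
    have hRsub : R ⊆ Q ∪ E := (Finset.subset_insert u R).trans hsub
    have hFl := fac_sub_lv hE hF
    have hRl : R ⊆ lv S σ := (Finset.subset_insert u R).trans hFl
    have hRσd : Disjoint R σ := sub_lv_disj hRl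
    have huQE : u ∈ Q ∪ E := hsub (Finset.mem_insert_self _ _)
    -- `R ∪ σ`
    have hRS : R ∪ σ ∈ S := hE.down _ hF.2.1 _
      (Finset.union_subset_union_left (Finset.subset_insert u R))
    have hRcard : (R ∪ σ).card + 1 = d := by
      have h1 := hF.2.2
      rw [Finset.card_insert_of_notMem hu] at h1
      rw [Finset.card_union_of_disjoint hRσd]
      omega
    have hlvR : (lv S (R ∪ σ)).card = 2 := HS.two hE _ hRS hRcard
    have hu'lv : u' ∈ lv S (R ∪ σ) := by
      rw [mem_lv]
      have hu'σ : u' ∉ σ := Finset.disjoint_left.mp hF'.1 (Finset.mem_insert_self _ _)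
      refine ⟨?_, ?_⟩
      · rw [Finset.mem_union, not_or]
        exact ⟨hu', hu'σ⟩
      · have := hF'.2.1
        rwa [Finset.insert_union] at this
    -- cardinalities of the two parts of `R`
    have hsplit : R = (R ∩ Q) ∪ (R ∩ E) := by
      rw [← Finset.inter_union_distrib_left]
      exact (Finset.inter_eq_left.mpr hRsub).symm
    have hdisj : Disjoint (R ∩ Q) (R ∩ E) :=
      (hQE.mono_left Finset.inter_subset_right).mono_right Finset.inter_subset_right
    have hRc : R.card = (R ∩ Q).card + (R ∩ E).card := by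
      conv_lhs => rw [hsplit]
      exact Finset.card_union_of_disjoint hdisj
    have hRc' : R.card + 1 + σ.card = d := by
      rw [Finset.card_union_of_disjoint hRσd] at hRcard
      omega
    -- faces
    have hFS := hF.2.1
    have f1 : ∀ A ⊆ insert u R, A ⊆ Q → A ∪ η ∪ σ ∈ S := by
      intro A hA hAQ
      refine glue hE (hE.down _ hFS _ (Finset.union_subset_union_left hA)) hησ ?_
      intro x hx y hy
      exact hc x (hAQ hx) y (hη hy)
    have f2 : ∀ A ⊆ insert u R, A ⊆ E → τ ∪ A ∪ σ ∈ S := by
      intro A hA hAE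
      refine glue hE hτσS (hE.down _ hFS _ (Finset.union_subset_union_left hA)) ?_
      intro x hx y hy
      exact hc x (hτQ hx) y (hAE hy)
    have c1 : ∀ A ⊆ insert u R, A ⊆ Q → A.card + η.card + σ.card ≤ d := by
      intro A hA hAQ
      have h1 := h.card_le _ (f1 A hA hAQ)
      rwa [card3 ((hQE.mono_left hAQ).mono_right hη) (sub_lv_disj (hA.trans hFl)) hησd] at h1
    have c2 : ∀ A ⊆ insert u R, A ⊆ E → τ.card + A.card + σ.card ≤ d := by
      intro A hA hAE
      have h1 := h.card_le _ (f2 A hA hAE)
      rwa [card3 ((hQE.mono_left hτQ).mono_right hAE) hτσ (sub_lv_disj (hA.trans hFl))] at h1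
    have hRQ1 : R ∩ Q ⊆ insert u R := Finset.inter_subset_left.trans (Finset.subset_insert _ _)
    have hRE1 : R ∩ E ⊆ insert u R := Finset.inter_subset_left.trans (Finset.subset_insert _ _)
    suffices hu'QE : u' ∈ Q ∪ E by
      intro x hx
      rw [Finset.mem_insert] at hx
      rcases hx with rfl | hx
      · exact hu'QE
      · exact hRsub hx
    rw [Finset.mem_union] at huQE
    rcases huQE with huQ | huE
    · -- `u ∈ Q`
      have hA : insert u (R ∩ Q) ⊆ insert u R :=
        Finset.insert_subset_insert _ Finset.inter_subset_left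
      have hAQ : insert u (R ∩ Q) ⊆ Q := by
        intro x hx
        rw [Finset.mem_insert] at hx
        rcases hx with rfl | hx
        · exact huQ
        · exact (Finset.mem_inter.mp hx).2
      have e1 := c1 _ hA hAQ
      have huRQ : u ∉ R ∩ Q := fun h' => hu (Finset.mem_inter.mp h').1
      rw [Finset.card_insert_of_notMem huRQ] at e1
      have e2 := c2 _ hRE1 Finset.inter_subset_right
      set ρ : Finset V := (R ∩ Q) ∪ η ∪ σ with hρdef
      have hρS : ρ ∈ S := f1 _ hRQ1 Finset.inter_subset_right
      have hρc : ρ.card + 1 = d := by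
        rw [hρdef, card3 ((hQE.mono_left Finset.inter_subset_right).mono_right hη)
          (sub_lv_disj (Finset.inter_subset_left.trans hRl)) hησd]
        omega
      have hlvρ := HS.two hE ρ hρS hρc
      have hsubQ : ∀ y ∈ lv S ρ, y ∈ Q ∧ y ∈ lv S (R ∪ σ) := by
        intro y hy
        obtain ⟨hy1, hy2⟩ := (mem_lv _ y).mp hy
        rw [hρdef, Finset.mem_union, Finset.mem_union, not_or, not_or] at hy1
        have hyQ : y ∈ Q := by
          rw [← hlk, mem_lv]
          refine ⟨?_, hE.down _ hy2 _ (Finset.insert_subset_insert _ ?_)⟩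
          · rw [Finset.mem_union, not_or]
            exact ⟨hy1.1.2, hy1.2⟩
          · rw [hρdef, Finset.union_assoc]
            exact Finset.subset_union_right
        refine ⟨hyQ, ?_⟩
        have hyR : y ∉ R := fun h' => hy1.1.1 (Finset.mem_inter.mpr ⟨h', hyQ⟩)
        have hyl : y ∈ lv S σ := hQ hyQ
        rw [mem_lv_union hE σ R hσ hRl hRS]
        refine ⟨hyl, hyR, ?_⟩
        intro r hr
        rcases Finset.mem_union.mp (hRsub hr) with hrQ | hrE
        · exact pair_mem hE _ hy2 y r (Finset.mem_insert_self _ _)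
            (Finset.mem_insert_of_mem (Finset.mem_union_left _ (Finset.mem_union_left _
              (Finset.mem_inter.mpr ⟨hr, hrQ⟩))))
        · exact hc y hyQ r hrE
      have heq : lv S ρ = lv S (R ∪ σ) :=
        Finset.eq_of_subset_of_card_le (fun y hy => (hsubQ y hy).2) (by omega)
      rw [← heq] at hu'lv
      exact Finset.mem_union_left _ (hsubQ u' hu'lv).1
    · -- `u ∈ E`
      have hA : insert u (R ∩ E) ⊆ insert u R :=
        Finset.insert_subset_insert _ Finset.inter_subset_left
      have hAE : insert u (R ∩ E) ⊆ E := by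
        intro x hx
        rw [Finset.mem_insert] at hx
        rcases hx with rfl | hx
        · exact huE
        · exact (Finset.mem_inter.mp hx).2
      have e1 := c2 _ hA hAE
      have huRE : u ∉ R ∩ E := fun h' => hu (Finset.mem_inter.mp h').1
      rw [Finset.card_insert_of_notMem huRE] at e1
      have e2 := c1 _ hRQ1 Finset.inter_subset_right
      set ρ : Finset V := τ ∪ (R ∩ E) ∪ σ with hρdef
      have hρS : ρ ∈ S := f2 _ hRE1 Finset.inter_subset_right
      have hρc : ρ.card + 1 = d := by
        rw [hρdef, card3 ((hQE.mono_left hτQ).mono_right Finset.inter_subset_right) hτσ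
          (sub_lv_disj (Finset.inter_subset_left.trans hRl))]
        omega
      have hlvρ := HS.two hE ρ hρS hρc
      have hsubE : ∀ y ∈ lv S ρ, y ∈ E ∧ y ∈ lv S (R ∪ σ) := by
        intro y hy
        obtain ⟨hy1, hy2⟩ := (mem_lv _ y).mp hy
        rw [hρdef, Finset.mem_union, Finset.mem_union, not_or, not_or] at hy1
        have hyl : y ∈ lv S σ := by
          rw [mem_lv]
          exact ⟨hy1.2, hE.down _ hy2 _ (Finset.insert_subset_insert _
            (by rw [hρdef]; exact Finset.subset_union_right))⟩
        have hyQE : y ∈ Q ∪ E := by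
          apply hN
          rw [mem_lv_insert h hE σ a y (hQ haQ)]
          refine ⟨hyl, fun h' => hy1.1.1 (h' ▸ haτ), ?_⟩
          exact pair_mem hE _ hy2 a y (Finset.mem_insert_of_mem (Finset.mem_union_left _
            (Finset.mem_union_left _ haτ))) (Finset.mem_insert_self _ _)
        have hyE : y ∈ E := by
          rcases Finset.mem_union.mp hyQE with hyQ | hyE
          · exfalso
            -- `insert y τ ∪ η ∪ σ` is too large
            have hτ' : insert y τ ∪ σ ∈ S := by
              refine hE.down _ hy2 _ ?_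
              intro z hz
              rw [Finset.mem_union, Finset.mem_insert] at hz
              rw [Finset.mem_insert, hρdef, Finset.mem_union, Finset.mem_union]
              tauto
            have hiQ : insert y τ ⊆ Q := by
              intro z hz
              rw [Finset.mem_insert] at hz
              rcases hz with rfl | hz
              · exact hyQ
              · exact hτQ hz
            have h1 : insert y τ ∪ η ∪ σ ∈ S := by
              refine glue hE hτ' hησ ?_
              intro x hx z hz
              exact hc x (hiQ hx) z (hη hz)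
            have h2 := h.card_le _ h1
            rw [card3 ((hQE.mono_left hiQ).mono_right hη) (sub_lv_disj (hiQ.trans hQ)) hησd,
              Finset.card_insert_of_notMem hy1.1.1] at h2
            omega
          · exact hyE
        refine ⟨hyE, ?_⟩
        have hyR : y ∉ R := fun h' => hy1.1.2 (Finset.mem_inter.mpr ⟨h', hyE⟩)
        rw [mem_lv_union hE σ R hσ hRl hRS]
        refine ⟨hyl, hyR, ?_⟩
        intro r hr
        rcases Finset.mem_union.mp (hRsub hr) with hrQ | hrE
        · rw [Finset.pair_comm]
          exact hc r hrQ y hyE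
        · exact pair_mem hE _ hy2 y r (Finset.mem_insert_self _ _)
            (Finset.mem_insert_of_mem (Finset.mem_union_left _ (Finset.mem_union_right _
              (Finset.mem_inter.mpr ⟨hr, hrE⟩))))
      have heq : lv S ρ = lv S (R ∪ σ) :=
        Finset.eq_of_subset_of_card_le (fun y hy => (hsubE y hy).2) (by omega)
      rw [← heq] at hu'lv
      exact Finset.mem_union_right _ (hsubE u' hu'lv).1
  have hall := HS.strong h σ hσ (fun F => F ⊆ Q ∪ E) (τ ∪ η) hF0 hP0' hcl
  refine Finset.Subset.antisymm ?_ (Finset.union_subset hQ hE1)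
  intro x hx
  obtain ⟨hx1, hx2⟩ := (mem_lv σ x).mp hx
  obtain ⟨P, hP1', hP2', hP3'⟩ := exists_facet h (insert x σ) hx2
  rw [Finset.card_insert_of_notMem hx1] at hP3'
  have hxP : x ∉ P := fun h' => Finset.disjoint_left.mp hP1' h' (Finset.mem_insert_self _ _)
  have hfac : Fac S d σ (insert x P) := by
    refine ⟨?_, ?_, ?_⟩
    · rw [Finset.disjoint_insert_left]
      exact ⟨hx1, hP1'.mono_right (Finset.subset_insert _ _)⟩
    · have h1 : insert x P ∪ σ = P ∪ insert x σ := by
        rw [Finset.insert_union, Finset.union_insert]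
      rw [h1]
      exact hP2'
    · rw [Finset.card_insert_of_notMem hxP]
      omega
  exact hall _ hfac (Finset.mem_insert_self _ _)

end Pool.Agent.MP19e880
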