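import Pool.Agent.Lib.MP_19e880_co_LB.Defs

/-!
Separating sets in the links of a flag homology sphere.
-/

set_option autoImplicit false
set_option linter.unusedSectionVars false

namespace Pool.Agent.MP19e880

variable {V : Type} [Fintype V] [LinearOrder V] {k : Type} [Field k]

/-- If all cycles of degree one are boundaries then the one-skeleton is connected. -/
theorem conn_gen (P : Finset V → Prop)
    (hP : ∀ z : Finset V → k, Ch P 1 z → bd z = 0 → ∃ c : Finset V → k, Ch P 2 c ∧ bd c = z)
    (X : Finset V) (x0 y0 : V) (hx0 : x0 ∈ X) (hPx : P {x0}) (hy0 : y0 ∉ X) (hPy : P {y0}) :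
    ∃ x ∈ X, ∃ y, y ∉ X ∧ P {x, y} := by
  classical
  by_contra hcon
  push Not at hcon
  have hcyc : bd (sg k ({x0} : Finset V) - sg k ({y0} : Finset V)) = 0 := by
    rw [bd_sub, bd_sg_single, bd_sg_single, sub_self]
  obtain ⟨c, hc, hbc⟩ := hP _ ((sg_ch P {x0} 1 hPx (by simp)).sub (sg_ch P {y0} 1 hPy (by simp)))
    hcyc
  let e : Finset V → k := fun A => if A ⊆ X then c A else 0
  have he : ∀ w : V, bd e {w} = if w ∈ X then bd c {w} else 0 := by
    intro w
    simp only [bd]
    by_cases hw : w ∈ X
    · rw [if_pos hw]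
      refine Finset.sum_congr rfl fun x hx => ?_
      congr 1
      by_cases hx2 : c (insert x {w}) = 0
      · simp only [e]
        rw [hx2]
        split_ifs <;> rfl
      · have hL := (hc _ hx2).1
        have hxX : x ∈ X := by
          by_contra hxX
          refine hcon w hw x hxX ?_
          rw [Finset.pair_comm]
          exact hL
        simp only [e]
        rw [if_pos]
        intro y hy
        rw [Finset.mem_insert, Finset.mem_singleton] at hy
        rcases hy with rfl | rfl
        · exact hxX
        · exact hw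
    · rw [if_neg hw]
      refine Finset.sum_eq_zero fun x _ => ?_
      have : e (insert x {w}) = 0 := by
        simp only [e]
        rw [if_neg]
        intro h'
        exact hw (h' (by simp))
      rw [this, mul_zero]
  have hbb := congrFun (bd_bd e) ∅
  have hsum : bd (bd e) ∅ = 1 := by
    have h1 : bd (bd e) ∅ = ∑ w : V, bd e {w} := by
      conv_lhs => unfold bd
      simp only [Finset.compl_empty]
      refine Finset.sum_congr rfl fun w _ => ?_
      rw [eps_empty, one_mul]
      rfl
    have hxy : ({x0} : Finset V) ≠ {y0} := by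
      intro h'
      exact hy0 (Finset.singleton_injective h' ▸ hx0)
    rw [h1, Finset.sum_eq_single x0]
    · rw [he, if_pos hx0, hbc]
      simp only [Pi.sub_apply, sg, if_true]
      rw [if_neg hxy, sub_zero]
    · intro w _ hw
      rw [he]
      split_ifs with h'
      · rw [hbc]
        have hwv : w ≠ y0 := by
          rintro rfl
          exact hy0 h'
        simp only [Pi.sub_apply, sg]
        rw [if_neg (fun h'' => hw (Finset.singleton_injective h'')),
          if_neg (fun h'' => hwv (Finset.singleton_injective h'')), sub_zero]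
      · rfl
    · intro h'
      exact absurd (Finset.mem_univ _) h'
  rw [hsum, Pi.zero_apply] at hbb
  exact one_ne_zero hbb

/-- The link of a face of codimension at least two is connected. -/
theorem conn_lk {S : Finset (Finset V)} {d : ℕ} (h : HS k S d) (hE : Eul S d)
    (σ : Finset V) (hσ : σ ∈ S) (hd : σ.card + 1 ≠ d) (X : Finset V) (x0 y0 : V)
    (hx0 : x0 ∈ X) (hx0' : x0 ∈ lv S σ) (hy0 : y0 ∉ X) (hy0' : y0 ∈ lv S σ) :
    ∃ x ∈ X, ∃ y ∈ lv S σ, y ∉ X ∧ ({x, y} : Finset V) ∈ S := by
  have key : ∀ x ∈ lv S σ, LX S σ ∅ {x} := by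
    intro x hx
    have hx' := (mem_lv σ x).mp hx
    refine ⟨?_, ?_, Finset.disjoint_empty_right _⟩
    · rw [Finset.disjoint_singleton_left]
      exact hx'.1
    · rw [Finset.singleton_union]
      exact hx'.2
  obtain ⟨x, hx, y, hy, hxy⟩ := conn_gen (k := k) (LX S σ ∅)
    (fun z hz hbz => h.ex σ hσ 1 (by omega) z hz hbz) X x0 y0 hx0 (key _ hx0') hy0 (key _ hy0')
  obtain ⟨h1, h2, _⟩ := hxy
  refine ⟨x, hx, y, ?_, hy, ?_⟩
  · rw [mem_lv]
    refine ⟨Finset.disjoint_left.mp h1 (by simp), hE.down _ h2 _ ?_⟩
    exact Finset.insert_subset (Finset.mem_union_left _ (by simp)) Finset.subset_union_right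
  · exact hE.down _ h2 _ Finset.subset_union_left

theorem mem_nn {S : Finset (Finset V)} (σ : Finset V) (x y : V) :
    y ∈ nn S σ x ↔ y ∈ lv S σ ∧ ({y, x} : Finset V) ∉ S := by
  unfold nn
  rw [Finset.mem_filter]

/-- The non-neighbours of a vertex form a connected set. -/
theorem conn_nn {S : Finset (Finset V)} {d : ℕ} (h : HS k S d) (hE : Eul S d)
    (σ : Finset V) (hσ : σ ∈ S) (v : V) (hv : v ∈ lv S σ) (X : Finset V) (x0 y0 : V)
    (hx0 : x0 ∈ X) (hx0' : x0 ∈ nn S σ v) (hy0 : y0 ∉ X) (hy0' : y0 ∈ nn S σ v) :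
    ∃ x ∈ X, x ∈ nn S σ v ∧ ∃ y ∈ nn S σ v, y ∉ X ∧ ({x, y} : Finset V) ∈ S := by
  have hv' := (mem_lv σ v).mp hv
  have key : ∀ x ∈ nn S σ v, LX S σ (Nb S v) {x} := by
    intro x hx
    rw [mem_nn] at hx
    have hx' := (mem_lv σ x).mp hx.1
    refine ⟨?_, ?_, ?_⟩
    · rw [Finset.disjoint_singleton_left]
      exact hx'.1
    · rw [Finset.singleton_union]
      exact hx'.2
    · rw [Finset.disjoint_singleton_left]
      unfold Nb
      rw [Finset.mem_filter]
      exact fun h' => hx.2 h'.2
  obtain ⟨x, hx, y, hy, hxy⟩ := conn_gen (k := k) (LX S σ (Nb S v))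
    (fun z hz hbz => h.acyc_K σ hσ v hv'.1 hv'.2 1 z hz hbz) X x0 y0 hx0 (key _ hx0') hy0
    (key _ hy0')
  obtain ⟨h1, h2, h3⟩ := hxy
  have key2 : ∀ w, w ∈ ({x, y} : Finset V) → w ∈ nn S σ v := by
    intro w hw
    rw [mem_nn, mem_lv]
    refine ⟨⟨Finset.disjoint_left.mp h1 hw, hE.down _ h2 _ ?_⟩, ?_⟩
    · exact Finset.insert_subset (Finset.mem_union_left _ hw) Finset.subset_union_right
    · intro h4
      refine Finset.disjoint_left.mp h3 hw ?_
      unfold Nb
      rw [Finset.mem_filter]
      exact ⟨Finset.mem_univ _, h4⟩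
  exact ⟨x, hx, key2 x (by simp), y, key2 y (by simp), hy,
    hE.down _ h2 _ Finset.subset_union_left⟩

theorem nn_nonempty {S : Finset (Finset V)} {d : ℕ} (h : HS k S d) (hE : Eul S d)
    (σ : Finset V) (hσ : σ ∈ S) (v : V) (hv : v ∈ lv S σ) : (nn S σ v).Nonempty := by
  have hv' := (mem_lv σ v).mp hv
  have h1 := lv_bound h σ hσ v hv'.1 hv'.2
  have h2 := lv_card h hE σ v hv
  rw [← Finset.card_pos]
  omega

/-- Not all neighbours of `b` are neighbours of `c`. -/
theorem sep_aux {S : Finset (Finset V)} {d : ℕ} (h : HS k S d) (hE : Eul S d)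
    (σ : Finset V) (b c : V) (hb : b ∈ lv S σ) (hc : c ∈ lv S σ)
    (hbc : b ≠ c) (hbc2 : ({b, c} : Finset V) ∈ S)
    (hall : ∀ y ∈ lv S (insert b σ), ({y, c} : Finset V) ∈ S) : False := by
  have hb' := (mem_lv σ b).mp hb
  have hcl : c ∈ lv S (insert b σ) := (mem_lv_insert h hE σ b c hb).mpr ⟨hc, hbc.symm, hbc2⟩
  obtain ⟨y, hy⟩ := nn_nonempty h hE (insert b σ) hb'.2 c hcl
  rw [mem_nn] at hy
  exact hy.2 (hall y hy.1)

/-- The last step. -/
theorem sep_step {S : Finset (Finset V)} {d : ℕ} (h : HS k S d) (hE : Eul S d)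
    (σ : Finset V) (hσ : σ ∈ S) (A B : Finset V) (hA : A ⊆ lv S σ) (hB : B ⊆ lv S σ)
    (hAn : A.Nonempty) (hBn : B.Nonempty)
    (hAB : ∀ a ∈ A, ∀ b ∈ B, ({a, b} : Finset V) ∉ S) (c : V) (hc : c ∈ lv S σ)
    (hcA : c ∉ A) (hcB : c ∉ B) :
    ∃ c' ∈ lv S σ, c' ∉ A ∧ c' ∉ B ∧ ({c', c} : Finset V) ∉ S := by
  by_contra hcon
  push Not at hcon
  have hU : ∀ y ∈ nn S σ c, y ∈ A ∨ y ∈ B := by
    intro y hy
    rw [mem_nn] at hy
    by_contra h1
    rw [not_or] at h1
    exact hy.2 (hcon y hy.1 h1.1 h1.2)
  -- `B` cannot be free of non-neighbours, and neither can `A`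
  have key : ∀ A B : Finset V, A ⊆ lv S σ → B ⊆ lv S σ → B.Nonempty →
      (∀ a ∈ A, ∀ b ∈ B, ({a, b} : Finset V) ∉ S) → c ∉ B →
      (∀ y ∈ nn S σ c, y ∈ A) → False := by
    intro A B hA hB hBn hAB hcB hU
    obtain ⟨b, hb⟩ := hBn
    have hadj : ∀ y ∈ lv S σ, y ∉ A → ({y, c} : Finset V) ∈ S := by
      intro y hy hyA
      by_contra h1
      exact hyA (hU y ((mem_nn σ c y).mpr ⟨hy, h1⟩))
    have hbA : b ∉ A := by
      intro hbA
      exact hAB b hbA b hb (self_pair hE σ b (hB hb))
    refine sep_aux h hE σ b c (hB hb) hc ?_ (hadj b (hB hb) hbA) ?_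
    · rintro rfl
      exact hcB hb
    · intro y hy
      rw [mem_lv_insert h hE σ b y (hB hb)] at hy
      refine hadj y hy.1 ?_
      intro hyA
      refine hAB y hyA b hb ?_
      rw [Finset.pair_comm]
      exact hy.2.2
  by_cases h1 : ∀ y ∈ nn S σ c, y ∈ A
  · exact key A B hA hB hBn hAB hcB h1
  · by_cases h2 : ∀ y ∈ nn S σ c, y ∈ B
    · refine key B A hB hA hAn ?_ hcA h2
      intro b hb a ha
      rw [Finset.pair_comm]
      exact hAB a ha b hb
    · push Not at h1 h2
      obtain ⟨y0, hy0, hy0A⟩ := h1
      obtain ⟨x0, hx0, hx0B⟩ := h2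
      have hx0A : x0 ∈ A := (hU x0 hx0).resolve_right hx0B
      obtain ⟨x, hxA, _, y, hy, hyA, hxy⟩ := conn_nn h hE σ hσ c hc A x0 y0 hx0A hx0 hy0A hy0
      exact hAB x hxA y ((hU y hy).resolve_left hyA) hxy

theorem sdiff_union_insert (L A B : Finset V) (c : V) :
    L \ (A ∪ insert c B) = (L \ (A ∪ B)).erase c := by
  ext y
  simp only [Finset.mem_sdiff, Finset.mem_union, Finset.mem_insert, Finset.mem_erase, not_or]
  constructor
  · rintro ⟨h1, h2, h3, h4⟩
    exact ⟨h3, h1, h2, h4⟩
  · rintro ⟨h1, h2, h3, h4⟩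
    exact ⟨h2, h3, h1, h4⟩

/-- MODULE SEP. -/
theorem sep {S : Finset (Finset V)} {d : ℕ} (h : HS k S d) (hE : Eul S d) :
    ∀ m : ℕ, ∀ σ ∈ S, σ.card + m = d → ∀ A B : Finset V, A ⊆ lv S σ → B ⊆ lv S σ →
      A.Nonempty → B.Nonempty → Disjoint A B → (∀ a ∈ A, ∀ b ∈ B, ({a, b} : Finset V) ∉ S) →
      2 * m ≤ (lv S σ \ (A ∪ B)).card + 2 := by
  intro m
  induction m with
  | zero => intro σ _ _ A B _ _ _ _ _ _; omega
  | succ m ih =>
    intro σ hσ hm
    rcases Nat.eq_zero_or_pos m with hm0 | hmpos
    · intro A B _ _ _ _ _ _; omega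
    · -- inner induction
      suffices H : ∀ n : ℕ, ∀ A B : Finset V, (lv S σ \ (A ∪ B)).card = n → A ⊆ lv S σ →
          B ⊆ lv S σ → A.Nonempty → B.Nonempty → Disjoint A B →
          (∀ a ∈ A, ∀ b ∈ B, ({a, b} : Finset V) ∉ S) →
          2 * (m + 1) ≤ (lv S σ \ (A ∪ B)).card + 2 by
        intro A B hA hB hAn hBn hAB hadj
        exact H _ A B rfl hA hB hAn hBn hAB hadj
      intro n
      induction n with
      | zero =>
        intro A B hn hA hB hAn hBn hAB hadj
        exfalso
        rw [Finset.card_eq_zero, Finset.sdiff_eq_empty_iff_subset] at hn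
        obtain ⟨x0, hx0⟩ := hAn
        obtain ⟨y0, hy0⟩ := hBn
        obtain ⟨x, hx, y, hy, hyA, hxy⟩ := conn_lk h hE σ hσ (by omega) A x0 y0 hx0 (hA hx0)
          (Finset.disjoint_right.mp hAB hy0) (hB hy0)
        have h1 := hn hy
        rw [Finset.mem_union] at h1
        exact hadj x hx y (h1.resolve_left hyA) hxy
      | succ n ihn =>
        intro A B hn hA hB hAn hBn hAB hadj
        have hCn : (lv S σ \ (A ∪ B)).Nonempty := by
          rw [← Finset.card_pos]; omega
        -- enlarge `B`
        by_cases h1 : ∃ c ∈ lv S σ \ (A ∪ B), ∀ a ∈ A, ({a, c} : Finset V) ∉ S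
        · obtain ⟨c, hc, hca⟩ := h1
          rw [Finset.mem_sdiff, Finset.mem_union, not_or] at hc
          have hC : lv S σ \ (A ∪ insert c B) = (lv S σ \ (A ∪ B)).erase c :=
            sdiff_union_insert _ _ _ _
          have hcC : c ∈ lv S σ \ (A ∪ B) := by
            rw [Finset.mem_sdiff, Finset.mem_union, not_or]; exact hc
          have hcard : (lv S σ \ (A ∪ insert c B)).card = n := by
            rw [hC, Finset.card_erase_of_mem hcC]; omega
          have h2 := ihn A (insert c B) hcard hA (Finset.insert_subset hc.1 hB) hAn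
            (Finset.insert_nonempty _ _) (by
              rw [Finset.disjoint_insert_right]; exact ⟨hc.2.1, hAB⟩) (by
              intro a ha b hb
              rw [Finset.mem_insert] at hb
              rcases hb with rfl | hb
              · exact hca a ha
              · exact hadj a ha b hb)
          omega
        · by_cases h2 : ∃ c ∈ lv S σ \ (A ∪ B), ∀ b ∈ B, ({c, b} : Finset V) ∉ S
          · obtain ⟨c, hc, hcb⟩ := h2
            rw [Finset.mem_sdiff, Finset.mem_union, not_or] at hc
            have hC : lv S σ \ (insert c A ∪ B) = (lv S σ \ (A ∪ B)).erase c := by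
              rw [Finset.union_comm, sdiff_union_insert, Finset.union_comm]
            have hcC : c ∈ lv S σ \ (A ∪ B) := by
              rw [Finset.mem_sdiff, Finset.mem_union, not_or]; exact hc
            have hcard : (lv S σ \ (insert c A ∪ B)).card = n := by
              rw [hC, Finset.card_erase_of_mem hcC]; omega
            have h2 := ihn (insert c A) B hcard (Finset.insert_subset hc.1 hA) hB
              (Finset.insert_nonempty _ _) hBn (by
                rw [Finset.disjoint_insert_left]; exact ⟨hc.2.2, hAB⟩) (by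
                intro a ha b hb
                rw [Finset.mem_insert] at ha
                rcases ha with rfl | ha
                · exact hcb b hb
                · exact hadj a ha b hb)
            omega
          · push Not at h1 h2
            obtain ⟨c, hc⟩ := hCn
            obtain ⟨a, ha, hac⟩ := h1 c hc
            obtain ⟨b, hb, hcb⟩ := h2 c hc
            rw [Finset.mem_sdiff, Finset.mem_union, not_or] at hc
            have hc' := (mem_lv σ c).mp hc.1
            obtain ⟨c', hc'l, hc'A, hc'B, hc'c⟩ := sep_step h hE σ hσ A B hA hB hAn hBn hadj c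
              hc.1 hc.2.1 hc.2.2
            have h3 := ih (insert c σ) hc'.2 (by
              rw [Finset.card_insert_of_notMem hc'.1]; omega)
              (A ∩ lv S (insert c σ)) (B ∩ lv S (insert c σ)) Finset.inter_subset_right
              Finset.inter_subset_right
              ⟨a, by
                rw [Finset.mem_inter, mem_lv_insert h hE σ c a hc.1]
                refine ⟨ha, hA ha, ?_, ?_⟩
                · rintro rfl
                  exact hc.2.1 ha
                · rw [Finset.pair_comm]; exact hac⟩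
              ⟨b, by
                rw [Finset.mem_inter, mem_lv_insert h hE σ c b hc.1]
                refine ⟨hb, hB hb, ?_, hcb⟩
                rintro rfl
                exact hc.2.2 hb⟩
              (Finset.disjoint_of_subset_left Finset.inter_subset_left
                (Finset.disjoint_of_subset_right Finset.inter_subset_left hAB))
              (fun a ha b hb => hadj a (Finset.mem_inter.mp ha).1 b (Finset.mem_inter.mp hb).1)
            have hsub : insert c' (insert c (lv S (insert c σ) \
                (A ∩ lv S (insert c σ) ∪ B ∩ lv S (insert c σ)))) ⊆ lv S σ \ (A ∪ B) := by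
              intro y hy
              rw [Finset.mem_insert, Finset.mem_insert] at hy
              rw [Finset.mem_sdiff, Finset.mem_union, not_or]
              rcases hy with rfl | rfl | hy
              · exact ⟨hc'l, hc'A, hc'B⟩
              · exact hc
              · rw [Finset.mem_sdiff, Finset.mem_union, not_or, Finset.mem_inter,
                  Finset.mem_inter] at hy
                exact ⟨lv_insert_sub hE σ c hy.1, fun h4 => hy.2.1 ⟨h4, hy.1⟩,
                  fun h4 => hy.2.2 ⟨h4, hy.1⟩⟩
            have hcn : c ∉ lv S (insert c σ) \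
                (A ∩ lv S (insert c σ) ∪ B ∩ lv S (insert c σ)) := by
              intro h4
              have h5 := (Finset.mem_sdiff.mp h4).1
              exact ((mem_lv_insert h hE σ c c hc.1).mp h5).2.1 rfl
            have hcn' : c' ∉ insert c (lv S (insert c σ) \
                (A ∩ lv S (insert c σ) ∪ B ∩ lv S (insert c σ))) := by
              rw [Finset.mem_insert, not_or]
              constructor
              · rintro rfl
                exact hc'c (self_pair hE σ _ hc.1)
              · intro h4
                have h5 := (Finset.mem_sdiff.mp h4).1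
                apply hc'c
                rw [Finset.pair_comm]
                exact ((mem_lv_insert h hE σ c c' hc.1).mp h5).2.2
            have h6 := Finset.card_le_card hsub
            rw [Finset.card_insert_of_notMem hcn', Finset.card_insert_of_notMem hcn] at h6
            omega

end Pool.Agent.MP19e880
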