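import Pool.Agent.Lib.MP_19e880_co_LB.LemA
import Pool.Agent.Lib.MP_19e880_co_LB.Sep
import Pool.Agent.Lib.MP_19e880_co_LB.JCrit

/-!
The key lemmas on the join components `Qc v` of `a` in the links of the neighbours `v` of `a`.
-/

set_option autoImplicit false
set_option linter.unusedSectionVars false

namespace Pool.Agent.MP19e880

variable {V : Type} [Fintype V] [LinearOrder V] {k : Type} [Field k]

/-- The join component of `a` in the link of `v`. -/
noncomputable def Qc (S : Finset (Finset V)) (σ : Finset V) (a v : V) : Finset V :=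
  cp S (lv S (insert v σ)) a

section
variable {S : Finset (Finset V)} {d : ℕ} (h : HS k S d) (hE : Eul S d)
include h hE

theorem a_mem {σ : Finset V} {a v : V} (ha : a ∈ lv S σ) (hv : v ∈ lv S (insert a σ)) :
    a ∈ lv S (insert v σ) := by
  rw [mem_lv_insert h hE σ a v ha] at hv
  rw [mem_lv_insert h hE σ v a hv.1]
  exact ⟨ha, hv.2.1.symm, pair_symm hv.2.2⟩

theorem a_mem_Qc {σ : Finset V} {a v : V} (ha : a ∈ lv S σ) (hv : v ∈ lv S (insert a σ)) :
    a ∈ Qc S σ a v := mem_cp_self (a_mem h hE ha hv)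

/-- K1. -/
theorem Qc_sub {σ : Finset V} {a v v' : V} (ha : a ∈ lv S σ)
    (hv : v ∈ lv S (insert a σ)) (hv' : v' ∈ lv S (insert a σ)) (hne : v' ≠ v)
    (hvv : ({v, v'} : Finset V) ∈ S) (hnot : v' ∉ Qc S σ a v) : Qc S σ a v ⊆ Qc S σ a v' := by
  have h1 := (mem_lv_insert h hE σ a v ha).mp hv
  have h2 := (mem_lv_insert h hE σ a v' ha).mp hv'
  have h3 : v' ∈ lv S (insert v σ) := (mem_lv_insert h hE σ v v' h1.1).mpr ⟨h2.1, hne, hvv⟩
  refine con_sub_cp (cp_con (a_mem h hE ha hv)) ?_ (a_mem_Qc h hE ha hv)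
  intro x hx
  have hx1 : x ∈ lv S (insert v σ) := cp_sub hx
  have hx2 := (mem_lv_insert h hE σ v x h1.1).mp hx1
  rw [mem_lv_insert h hE σ v' x h2.1]
  refine ⟨hx2.1, ?_, ?_⟩
  · rintro rfl
    exact hnot hx
  · exact pair_symm ((cp_cld S _ a).2 x hx v' (Finset.mem_sdiff.mpr ⟨h3, hnot⟩))

/-- K2. -/
theorem Qc_inter {σ : Finset V} {a v : V} (ha : a ∈ lv S σ)
    (hv : v ∈ lv S (insert a σ)) :
    ((Qc S σ a v).card = 2 → Qc S σ a v ∩ lv S (insert a σ) = ∅) ∧
    ((Qc S σ a v).card ≤ 5 → (Qc S σ a v ∩ lv S (insert a σ)).card ≤ 2) := by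
  have h1 := (mem_lv_insert h hE σ a v ha).mp hv
  have hvS : insert v σ ∈ S := ((mem_lv σ v).mp h1.1).2
  obtain ⟨P, hP⟩ := exists_facet h _ hvS
  have hQ : Cld S (lv S (insert v σ)) (Qc S σ a v) := cp_cld S _ a
  have haQ := a_mem_Qc h hE ha hv
  have hcon : Con S (Qc S σ a v) := cp_con (a_mem h hE ha hv)
  obtain ⟨h2, h3, h4⟩ := split h hE hvS hP hQ
  have h5 := con_card h hE hvS hP hQ hcon ⟨a, haQ⟩
  have haρ : a ∈ lv S (P \ Qc S σ a v ∪ insert v σ) := by rw [h3]; exact haQ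
  have h6 : Qc S σ a v ∩ lv S (insert a σ) = lv S (insert a (P \ Qc S σ a v ∪ insert v σ)) := by
    ext y
    rw [Finset.mem_inter, mem_lv_insert h hE σ a y ha, mem_lv_insert h hE _ a y haρ, h3]
    constructor
    · rintro ⟨h7, h8, h9, h10⟩
      exact ⟨h7, h9, h10⟩
    · rintro ⟨h7, h9, h10⟩
      exact ⟨h7, lv_insert_sub hE σ v (cp_sub h7), h9, h10⟩
  rw [h6]
  have haρ' := (mem_lv _ a).mp haρ
  have h7 := lv_bound h _ h2 a haρ'.1 haρ'.2
  rw [h3] at h7
  constructor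
  · intro h8
    rw [← Finset.card_eq_zero]
    omega
  · intro h8
    rcases h5 with ⟨h9, _⟩ | ⟨h9, h10, h11⟩
    · omega
    · have hirr : Irr S (P \ Qc S σ a v ∪ insert v σ) := by
        unfold Irr
        rw [h3]
        exact hcon
      have h12 := nn_two h hE _ h2 (by omega) hirr a haρ
      have h13 := lv_card h hE _ a haρ
      rw [h3] at h13
      omega

/-- K3. -/
theorem dom_false {σ : Finset V} {a v0 : V} (hσ : σ ∈ S) (hirr : Irr S σ) (ha : a ∈ lv S σ)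
    (hv0 : v0 ∈ lv S (insert a σ)) (S0 : Finset V)
    (hS0 : ∀ v ∈ S0, v ∈ lv S (insert a σ) ∧ Qc S σ a v = Qc S σ a v0)
    (hdom : ∀ w ∈ lv S (insert a σ), w ∉ Qc S σ a v0 → w ∈ S0 ∨ ∃ v ∈ S0, ({v, w} : Finset V) ∈ S) :
    False := by
  have h1 := (mem_lv_insert h hE σ a v0 ha).mp hv0
  have hvS : insert v0 σ ∈ S := ((mem_lv σ v0).mp h1.1).2
  have hQL : Qc S σ a v0 ⊆ lv S σ := fun y hy => lv_insert_sub hE σ v0 (cp_sub hy)
  have hEL : lv S (insert a σ) \ Qc S σ a v0 ⊆ lv S σ := fun y hy =>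
    lv_insert_sub hE σ a (Finset.mem_sdiff.mp hy).1
  have hcomp0 : ∀ v ∈ lv S (insert a σ), Qc S σ a v = Qc S σ a v0 → ∀ q ∈ Qc S σ a v0,
      ({q, v} : Finset V) ∈ S := by
    intro v hv hvQ q hq
    rw [← hvQ] at hq
    have h2 := (mem_lv_insert h hE σ a v ha).mp hv
    exact pair_symm ((mem_lv_insert h hE σ v q h2.1).mp (cp_sub hq)).2.2
  have hcomp : ∀ q ∈ Qc S σ a v0, ∀ e ∈ lv S (insert a σ) \ Qc S σ a v0,
      ({q, e} : Finset V) ∈ S := by
    intro q hq e he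
    rw [Finset.mem_sdiff] at he
    rcases hdom e he.1 he.2 with h2 | ⟨v, hv, hve⟩
    · exact hcomp0 e he.1 (hS0 e h2).2 q hq
    · obtain ⟨h3, h4⟩ := hS0 v hv
      by_cases hev : e = v
      · subst hev
        exact hcomp0 e he.1 h4 q hq
      · have h5 := (mem_lv_insert h hE σ a v ha).mp h3
        have h6 := (mem_lv_insert h hE σ a e ha).mp he.1
        have h7 : e ∈ lv S (insert v σ) :=
          (mem_lv_insert h hE σ v e h5.1).mpr ⟨h6.1, hev, hve⟩
        have h8 : e ∉ Qc S σ a v := by rw [h4]; exact he.2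
        rw [← h4] at hq
        exact (cp_cld S _ a).2 q hq e (Finset.mem_sdiff.mpr ⟨h7, h8⟩)
  obtain ⟨P, hP⟩ := exists_facet h _ hvS
  have hQ : Cld S (lv S (insert v0 σ)) (Qc S σ a v0) := cp_cld S _ a
  have haQ := a_mem_Qc h hE ha hv0
  obtain ⟨h2, h3, h4⟩ := split h hE hvS hP hQ
  have hv0Q : v0 ∉ Qc S σ a v0 := by
    intro h'
    have := (mem_lv_insert h hE σ v0 v0 h1.1).mp (cp_sub h')
    exact this.2.1 rfl
  have hun : insert v0 (P \ Qc S σ a v0) ∪ σ = P \ Qc S σ a v0 ∪ insert v0 σ := by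
    ext y
    simp only [Finset.mem_union, Finset.mem_insert]
    tauto
  have hL := join_crit h hE σ hσ a (Qc S σ a v0) (lv S (insert a σ) \ Qc S σ a v0)
    (insert v0 (P \ Qc S σ a v0)) haQ hQL hEL Finset.disjoint_sdiff
    (by
      intro y hy
      by_cases hc : y ∈ Qc S σ a v0
      · exact Finset.mem_union_left _ hc
      · exact Finset.mem_union_right _ (Finset.mem_sdiff.mpr ⟨hy, hc⟩))
    hcomp
    (by
      intro y hy
      rw [Finset.mem_insert] at hy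
      rcases hy with rfl | hy
      · exact Finset.mem_sdiff.mpr ⟨hv0, hv0Q⟩
      · rw [Finset.mem_sdiff] at hy
        have hyL : y ∈ lv S (insert v0 σ) := fac_sub hE hP hy.1
        refine Finset.mem_sdiff.mpr ⟨?_, hy.2⟩
        rw [mem_lv_insert h hE σ a y ha]
        refine ⟨lv_insert_sub hE σ v0 hyL, ?_, ?_⟩
        · rintro rfl
          exact hy.2 haQ
        · exact hQ.2 a haQ y (Finset.mem_sdiff.mpr ⟨hyL, hy.2⟩))
    (by rw [hun]; exact h2) (by rw [hun]; exact h3)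
  obtain ⟨q, hq, e, he, hqe⟩ := hirr (Qc S σ a v0) hQL ⟨a, haQ⟩ (by
    intro h'
    exact hv0Q (by rw [h']; exact h1.1))
  apply hqe
  rw [Finset.mem_sdiff, hL, Finset.mem_union] at he
  rcases he with ⟨he | he, he2⟩
  · exact absurd he he2
  · exact hcomp q hq e he

/-- K3, for two vertices in different components. -/
theorem two_comp_false {σ : Finset V} {a v u : V} (hσ : σ ∈ S) (hirr : Irr S σ)
    (ha : a ∈ lv S σ) (hv : v ∈ lv S (insert a σ)) (hu : u ∈ lv S (insert a σ))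
    (huv : u ∉ cp S (lv S (insert a σ)) v) (hQ : Qc S σ a u = Qc S σ a v) : False := by
  refine dom_false h hE hσ hirr ha hv {v, u} ?_ ?_
  · intro w hw
    rw [Finset.mem_insert, Finset.mem_singleton] at hw
    rcases hw with rfl | rfl
    · exact ⟨hv, rfl⟩
    · exact ⟨hu, hQ⟩
  · intro w hw _
    right
    by_cases hc : w ∈ cp S (lv S (insert a σ)) v
    · exact ⟨u, by simp, pair_symm ((cp_cld S _ v).2 w hc u (Finset.mem_sdiff.mpr ⟨hu, huv⟩))⟩
    · exact ⟨v, by simp, (cp_cld S _ v).2 v (mem_cp_self hv) w (Finset.mem_sdiff.mpr ⟨hw, hc⟩)⟩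

/-- K4. -/
theorem S0_bound {σ : Finset V} {a v0 : V} (hσ : σ ∈ S) (hirr : Irr S σ)
    (ha : a ∈ lv S σ) (hv0 : v0 ∈ lv S (insert a σ)) {H P : Finset V}
    (hP : Fac S d (insert a σ) P) (hH : Cld S (lv S (insert a σ)) H)
    (hS0 : ∀ v ∈ lv S (insert a σ), Qc S σ a v = Qc S σ a v0 → v ∈ H) :
    ((lv S (insert a σ)).filter (fun v => Qc S σ a v = Qc S σ a v0)).card + 2 * (P ∩ H).card ≤
      H.card + 1 := by
  have haS : insert a σ ∈ S := ((mem_lv σ a).mp ha).2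
  obtain ⟨w, hw1, hw2, hw3⟩ : ∃ w ∈ lv S (insert a σ), w ∉ Qc S σ a v0 ∧
      ∀ v ∈ lv S (insert a σ), Qc S σ a v = Qc S σ a v0 → v ≠ w ∧ ({v, w} : Finset V) ∉ S := by
    by_contra hcon
    push Not at hcon
    refine dom_false h hE hσ hirr ha hv0
      ((lv S (insert a σ)).filter (fun v => Qc S σ a v = Qc S σ a v0)) ?_ ?_
    · intro v hv
      exact Finset.mem_filter.mp hv
    · intro w hw hw2
      obtain ⟨v, hv1, hv2, hv3⟩ := hcon w hw hw2
      by_cases hvw : v = w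
      · left
        rw [← hvw]
        exact Finset.mem_filter.mpr ⟨hv1, hv2⟩
      · right
        exact ⟨v, Finset.mem_filter.mpr ⟨hv1, hv2⟩, hv3 hvw⟩
  have hv0H : v0 ∈ H := hS0 v0 hv0 rfl
  have hwH : w ∈ H := by
    by_contra hc
    exact (hw3 v0 hv0 rfl).2 (hH.2 v0 hv0H w (Finset.mem_sdiff.mpr ⟨hw1, hc⟩))
  obtain ⟨h2, h3, h4⟩ := split h hE haS hP hH
  have hwρ : w ∈ lv S (P \ H ∪ insert a σ) := by rw [h3]; exact hwH
  have hwρ' := (mem_lv _ w).mp hwρ
  have h5 := h.card_le _ hwρ'.2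
  have h6 := Finset.card_insert_of_notMem hwρ'.1
  have h7 := lv_two_mul h ((P ∩ H).card - 1) _ hwρ'.2 (by omega)
  have h8 := lv_card h hE _ w hwρ
  have h9 : ((lv S (insert a σ)).filter (fun v => Qc S σ a v = Qc S σ a v0)).card ≤
      (nn S (P \ H ∪ insert a σ) w).card := by
    apply Finset.card_le_card
    intro v hv
    rw [Finset.mem_filter] at hv
    unfold nn
    rw [Finset.mem_filter, h3]
    exact ⟨hS0 v hv.1 hv.2, (hw3 v hv.1 hv.2).2⟩
  rw [h3] at h8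
  omega

/-- K5. -/
theorem sep_bound {τ H P A B : Finset V} (hτ : τ ∈ S)
    (hP : Fac S d τ P) (hH : Cld S (lv S τ) H) (hA : A ⊆ H) (hB : B ⊆ H) (hAn : A.Nonempty)
    (hBn : B.Nonempty) (hAB : Disjoint A B)
    (hnon : ∀ x ∈ A, ∀ y ∈ B, ({x, y} : Finset V) ∉ S) :
    A.card + B.card + 2 * (P ∩ H).card ≤ H.card + 2 := by
  obtain ⟨h2, h3, h4⟩ := split h hE hτ hP hH
  have h5 := sep h hE _ _ h2 h4 A B (by rw [h3]; exact hA) (by rw [h3]; exact hB) hAn hBn hAB hnon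
  rw [h3] at h5
  have h6 := Finset.card_sdiff_add_card_eq_card (Finset.union_subset hA hB)
  rw [Finset.card_union_of_disjoint hAB] at h6
  omega

/-- K7. -/
theorem comp_sub_Qc {σ : Finset V} {a v v' : V} (ha : a ∈ lv S σ)
    (hv : v ∈ lv S (insert a σ)) (hv' : v' ∈ lv S (insert a σ))
    (hvv : v ∉ cp S (lv S (insert a σ)) v') (hin : v' ∈ Qc S σ a v) :
    cp S (lv S (insert a σ)) v' ⊆ Qc S σ a v ∩ lv S (insert a σ) := by
  have h1 := (mem_lv_insert h hE σ a v ha).mp hv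
  have hsub : cp S (lv S (insert a σ)) v' ⊆ lv S (insert v σ) := by
    intro x hx
    rw [mem_lv_insert h hE σ v x h1.1]
    refine ⟨lv_insert_sub hE σ a (cp_sub hx), ?_, ?_⟩
    · rintro rfl
      exact hvv hx
    · exact pair_symm ((cp_cld S _ v').2 x hx v (Finset.mem_sdiff.mpr ⟨hv, hvv⟩))
  refine Finset.subset_inter ?_ cp_sub
  rcases con_split (lv S (insert v σ)) (Qc S σ a v) _ hsub (cp_cld S _ a).2 (cp_con hv') with
    h2 | h2
  · exact h2
  · exact absurd hin (Finset.disjoint_left.mp h2 (mem_cp_self hv'))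

end

end Pool.Agent.MP19e880
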