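import Pool.Agent.Lib.MP_19e880_co_LB.Cmp

/-!
Lemma A: `40 M ≤ 15 |lv τ| + sm τ` for a face `τ` whose link is a sphere with parameter `M`.
-/

set_option autoImplicit false
set_option linter.unusedSectionVars false

namespace Pool.Agent.MP19e880

variable {V : Type} [Fintype V] [LinearOrder V] {k : Type} [Field k]

theorem wt_two : wt 2 = 5 := rfl

theorem wt_five : wt 5 = 1 := rfl

theorem wt_le (n : ℕ) : wt n ≤ 5 := by
  unfold wt
  split_ifs <;> omega

theorem wt_le_one {n : ℕ} (h : n ≠ 2) : wt n ≤ 1 := by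
  unfold wt
  rw [if_neg h]
  split_ifs <;> omega

theorem wt_zero_of_six {n : ℕ} (h : 6 ≤ n) : wt n = 0 := by
  unfold wt
  rw [if_neg (by omega), if_neg (by omega)]

theorem piece_bound {n r : ℕ} (h : (n = 2 ∧ r = 1) ∨ (5 ≤ n ∧ 2 ≤ r ∧ 3 * r ≤ n + 1)) :
    40 * r ≤ 15 * n + n * wt n := by
  rcases h with ⟨rfl, rfl⟩ | ⟨h1, h2, h3⟩
  · rw [wt_two]
  · by_cases h5 : n = 5
    · subst h5
      rw [wt_five]
      omega
    · rw [wt_zero_of_six (by omega)]
      omega

/-- The sum of the weights over a closed set, computed in the closed set. -/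
theorem sm_rho {S : Finset (Finset V)} {L B : Finset V} (hB : Cld S L B) :
    ∑ b ∈ B, wt (cp S B b).card = ∑ b ∈ B, wt (cp S L b).card :=
  Finset.sum_congr rfl fun b hb => by rw [cp_restrict hB hb]

theorem sum_comp {S : Finset (Finset V)} {L : Finset V} {a : V} (ha : a ∈ L) :
    ∑ b ∈ cp S L a, wt (cp S L b).card = (cp S L a).card * wt (cp S L a).card := by
  rw [Finset.sum_congr rfl (fun b hb => by rw [cp_eq ha hb] :
    ∀ b ∈ cp S L a, wt (cp S L b).card = wt (cp S L a).card)]
  rw [Finset.sum_const, smul_eq_mul]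

/-- Lemma A. -/
theorem lemA {S : Finset (Finset V)} {d : ℕ} (h : HS k S d) (hE : Eul S d) :
    ∀ M : ℕ, ∀ τ ∈ S, τ.card + M = d → 40 * M ≤ 15 * (lv S τ).card + sm S τ := by
  intro M
  induction M using Nat.strong_induction_on with
  | _ M ih =>
    intro τ hτ hM
    rcases Nat.eq_zero_or_pos M with h0 | h0
    · subst h0
      omega
    obtain ⟨a, ha, ha2⟩ := h.extend τ hτ (by omega)
    have haL : a ∈ lv S τ := (mem_lv τ a).mpr ⟨ha, ha2⟩
    obtain ⟨P, hP⟩ := exists_facet h τ hτ
    have hP' : Fac S d τ P := hP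
    have hA := cp_cld S (lv S τ) a
    have h1 := con_card h hE hτ hP' hA (cp_con haL) ⟨a, mem_cp_self haL⟩
    have h2 := piece_bound h1
    obtain ⟨h3, h4, h5⟩ := split h hE hτ hP' hA.sdiff
    have hcard : (P ∩ cp S (lv S τ) a).card + (P ∩ (lv S τ \ cp S (lv S τ) a)).card = P.card := by
      rw [← Finset.card_union_of_disjoint]
      · congr 1
        ext y
        simp only [Finset.mem_union, Finset.mem_inter, Finset.mem_sdiff]
        constructor
        · rintro (h' | h')
          · exact h'.1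
          · exact h'.1
        · intro hy
          by_cases hc : y ∈ cp S (lv S τ) a
          · exact Or.inl ⟨hy, hc⟩
          · exact Or.inr ⟨hy, fac_sub hE hP' hy, hc⟩
      · rw [Finset.disjoint_left]
        intro y hy hy2
        rw [Finset.mem_inter] at hy hy2
        exact (Finset.mem_sdiff.mp hy2.2).2 hy.2
    have hPc := hP.2.2
    have h6 := ih (P ∩ (lv S τ \ cp S (lv S τ) a)).card (by omega) _ h3 h5
    have h7 : sm S (P \ (lv S τ \ cp S (lv S τ) a) ∪ τ) =
        ∑ b ∈ lv S τ \ cp S (lv S τ) a, wt (cp S (lv S τ) b).card := by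
      unfold sm
      rw [h4]
      exact sm_rho hA.sdiff
    have h8 : sm S τ = (cp S (lv S τ) a).card * wt (cp S (lv S τ) a).card +
        ∑ b ∈ lv S τ \ cp S (lv S τ) a, wt (cp S (lv S τ) b).card := by
      rw [← sum_comp haL]
      unfold sm
      rw [add_comm]
      exact (Finset.sum_sdiff cp_sub).symm
    have h9 := Finset.card_sdiff_add_card_eq_card (cp_sub (S := S) (L := lv S τ) (a := a))
    rw [h4, h7] at h6
    omega

/-- Lemma A for a closed subset of a link. -/
theorem lemA_cld {S : Finset (Finset V)} {d : ℕ} (h : HS k S d) (hE : Eul S d) {τ P B : Finset V}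
    (hτ : τ ∈ S) (hP : Fac S d τ P) (hB : Cld S (lv S τ) B) :
    40 * (P ∩ B).card ≤ 15 * B.card + ∑ b ∈ B, wt (cp S (lv S τ) b).card := by
  obtain ⟨h3, h4, h5⟩ := split h hE hτ hP hB
  have h6 := lemA h hE (P ∩ B).card _ h3 h5
  unfold sm at h6
  rw [h4, sm_rho hB] at h6
  exact h6

end Pool.Agent.MP19e880
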