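import Pool.Agent.Lib.MP_19e880_co_LB.Star

/-!
A dimension-free quadratic lower bound for `γ₂`.
-/

set_option autoImplicit false
set_option linter.unusedSectionVars false

namespace Pool.Agent.MP19e880

variable {V : Type} [Fintype V] [LinearOrder V] {k : Type} [Field k]

/-- The bound function. -/
def phi (g : ℤ) : ℤ := if g ≤ 1 then 0 else g ^ 2 + 4 * g + 16

theorem phi_nonneg (g : ℤ) : 0 ≤ phi g := by
  unfold phi
  split_ifs
  · exact le_refl _
  · nlinarith

theorem phi_le (g : ℤ) (hg : 0 ≤ g) : phi g ≤ g ^ 2 + 4 * g + 16 := by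
  unfold phi
  split_ifs
  · nlinarith
  · exact le_refl _

theorem phi_join (a b : ℤ) (ha : 0 ≤ a) (hb : 0 ≤ b) :
    phi a + phi b ≤ phi (a + b) + 6 * (a * b) := by
  unfold phi
  split_ifs with h1 h2 h3 h3 h2 h3 h3
  · nlinarith
  · have : a + b = 2 ∨ a + b < 2 := by omega
    nlinarith [mul_nonneg ha hb]
  · omega
  · nlinarith [mul_nonneg ha hb]
  · omega
  · nlinarith [mul_nonneg ha hb]
  · omega
  · nlinarith [mul_nonneg ha hb, mul_nonneg (show (0:ℤ) ≤ a - 2 by omega) (show (0:ℤ) ≤ b - 2 by omega)]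

theorem edge_triv {S : Finset (Finset V)} {d : ℕ} (h : HS k S d) (hE : Eul S d) (m : ℕ)
    (σ : Finset V) (_hσ : σ ∈ S) (hm : σ.card + (m + 1) = d) :
    m * fn S σ 1 ≤ fn S σ 2 := by
  have h1 := count S hE.down σ 1
  have h2 : ∑ v ∈ lv S σ, 2 * m ≤ ∑ v ∈ lv S σ, fn S (insert v σ) 1 := by
    refine Finset.sum_le_sum fun v hv => ?_
    rw [fn_one S hE.down]
    have hv' := (mem_lv σ v).mp hv
    exact lv_two_mul h m _ hv'.2 (by rw [Finset.card_insert_of_notMem hv'.1]; omega)
  rw [Finset.sum_const, smul_eq_mul, h1, ← fn_one S hE.down] at h2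
  nlinarith

/-- The quadratic bound. -/
theorem quad {S : Finset (Finset V)} {d : ℕ} (h : HS k S d) (hE : Eul S d)
    (hirrb : ∀ m : ℕ, ∀ σ ∈ S, σ.card + (m + 1) = d → Irr S σ →
      (4 * ((m : ℤ) + 1) - 7) * fn S σ 1 ≤ 3 * fn S σ 2)
    (hjoin : ∀ m : ℕ, ∀ σ ∈ S, σ.card + m = d → ¬ Irr S σ → ∃ τ ∈ S, ∃ ρ ∈ S, ∃ m1 m2 : ℕ,
      1 ≤ m1 ∧ 1 ≤ m2 ∧ m1 + m2 = m ∧ τ.card + m1 = d ∧ ρ.card + m2 = d ∧
      fn S σ 1 = fn S τ 1 + fn S ρ 1 ∧
      fn S σ 2 = fn S τ 2 + fn S ρ 2 + fn S τ 1 * fn S ρ 1) :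
    ∀ m : ℕ, ∀ σ ∈ S, σ.card + m = d →
      0 ≤ phi ((fn S σ 1 : ℤ) - 2 * m) +
        6 * ((fn S σ 2 : ℤ) - (2 * m - 3) * fn S σ 1 + 2 * m * (m - 2)) := by
  intro m
  induction m using Nat.strong_induction_on with
  | _ m ih =>
    intro σ hσ hm
    have hn : 2 * m ≤ fn S σ 1 := by
      rw [fn_one S hE.down]
      exact lv_two_mul h m σ hσ hm
    by_cases hirr : Irr S σ
    · rcases m with _ | m
      · have h1 : fn S σ 1 = 0 := by
          rw [fn_one S hE.down, Finset.card_eq_zero, Finset.eq_empty_iff_forall_notMem]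
          intro y hy
          have hy' := (mem_lv σ y).mp hy
          have := h.card_le _ hy'.2
          rw [Finset.card_insert_of_notMem hy'.1] at this
          omega
        rw [h1]
        have := phi_nonneg ((0 : ℕ) - 2 * (0 : ℕ) : ℤ)
        push_cast at this ⊢
        nlinarith
      · have h1 := hirrb m σ hσ hm hirr
        have h2 := irr_bound h hE m σ hσ hm hirr
        rw [← fn_one S hE.down] at h2
        have h3 := edge_triv h hE m σ hσ hm
        generalize fn S σ 1 = n at *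
        generalize fn S σ 2 = e at *
        unfold phi
        split_ifs with h4
        · have h5 : m = 0 ∨ m = 1 := by
            push_cast at h4
            omega
          rcases h5 with rfl | rfl
          · push_cast at *
            linarith
          · push_cast at *
            linarith
        · push_cast at *
          nlinarith [sq_nonneg ((n : ℤ) - 2 * (m + 1) - 2 * (m - 1))]
    · obtain ⟨τ, hτ, ρ, hρ, m1, m2, h1, h2, h3, h4, h5, h6, h7⟩ := hjoin m σ hσ hm hirr
      have i1 := ih m1 (by omega) τ hτ h4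
      have i2 := ih m2 (by omega) ρ hρ h5
      have l1 : 2 * m1 ≤ fn S τ 1 := by
        rw [fn_one S hE.down]
        exact lv_two_mul h m1 τ hτ h4
      have l2 : 2 * m2 ≤ fn S ρ 1 := by
        rw [fn_one S hE.down]
        exact lv_two_mul h m2 ρ hρ h5
      have hj := phi_join ((fn S τ 1 : ℤ) - 2 * m1) ((fn S ρ 1 : ℤ) - 2 * m2)
        (by omega) (by omega)
      rw [h6, h7, ← h3]
      have e1 : ((fn S τ 1 + fn S ρ 1 : ℕ) : ℤ) - 2 * ((m1 + m2 : ℕ) : ℤ) =
          ((fn S τ 1 : ℤ) - 2 * m1) + ((fn S ρ 1 : ℤ) - 2 * m2) := by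
        push_cast
        ring
      rw [e1]
      push_cast
      nlinarith

end Pool.Agent.MP19e880
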