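import Pool.Agent.Lib.MP_19e880_co_LB.Key

/-!
The inequality (*) at a vertex `a` of an irreducible link.
-/

set_option autoImplicit false
set_option linter.unusedSectionVars false

namespace Pool.Agent.MP19e880

variable {V : Type} [Fintype V] [LinearOrder V] {k : Type} [Field k]

section
variable {S : Finset (Finset V)} {d : ℕ} (h : HS k S d) (hE : Eul S d)
include h hE

/-- It is enough to prove the inequality in one component `H`. -/
theorem star_of_comp {τ P : Finset V} (hτ : τ ∈ S) (hP : Fac S d τ P) {v0 : V}
    (hv0 : v0 ∈ lv S τ) (W C : ℕ)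
    (hW : 40 * (P ∩ cp S (lv S τ) v0).card + W ≤ 15 * (cp S (lv S τ) v0).card +
      (cp S (lv S τ) v0).card * wt (cp S (lv S τ) v0).card + C) :
    40 * P.card + W ≤ 15 * (lv S τ).card + sm S τ + C := by
  have hA := cp_cld S (lv S τ) v0
  have h2 := lemA_cld h hE hτ hP hA.sdiff
  have hcard : (P ∩ cp S (lv S τ) v0).card + (P ∩ (lv S τ \ cp S (lv S τ) v0)).card = P.card := by
    rw [← Finset.card_union_of_disjoint]
    · congr 1
      ext y
      simp only [Finset.mem_union, Finset.mem_inter, Finset.mem_sdiff]
      constructor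
      · rintro (h' | h')
        · exact h'.1
        · exact h'.1
      · intro hy
        by_cases hc : y ∈ cp S (lv S τ) v0
        · exact Or.inl ⟨hy, hc⟩
        · exact Or.inr ⟨hy, fac_sub hE hP hy, hc⟩
    · rw [Finset.disjoint_left]
      intro y hy hy2
      rw [Finset.mem_inter] at hy hy2
      exact (Finset.mem_sdiff.mp hy2.2).2 hy.2
  have h8 : sm S τ = (cp S (lv S τ) v0).card * wt (cp S (lv S τ) v0).card +
      ∑ b ∈ lv S τ \ cp S (lv S τ) v0, wt (cp S (lv S τ) b).card := by
    rw [← sum_comp hv0]
    unfold sm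
    rw [add_comm]
    exact (Finset.sum_sdiff cp_sub).symm
  have h9 := Finset.card_sdiff_add_card_eq_card (cp_sub (S := S) (L := lv S τ) (a := v0))
  omega

/-- The inequality (*). -/
theorem star {σ : Finset V} (hσ : σ ∈ S) {m : ℕ} (hm : σ.card + (m + 1) = d) (hirr : Irr S σ)
    {a : V} (ha : a ∈ lv S σ) :
    40 * m + ∑ v ∈ lv S (insert a σ), wt (Qc S σ a v).card ≤
      15 * (lv S (insert a σ)).card + sm S (insert a σ) + 30 := by
  have haS : insert a σ ∈ S := ((mem_lv σ a).mp ha).2
  have hτc : (insert a σ).card + m = d := by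
    rw [Finset.card_insert_of_notMem ((mem_lv σ a).mp ha).1]
    omega
  obtain ⟨P, hP⟩ := exists_facet h _ haS
  have hPm : P.card = m := by
    have := hP.2.2
    omega
  set N := lv S (insert a σ) with hN
  set Z := N.filter (fun v => (Qc S σ a v).card ≤ 5) with hZ
  have hWZ : ∑ v ∈ N, wt (Qc S σ a v).card = ∑ v ∈ Z, wt (Qc S σ a v).card := by
    rw [hZ, Finset.sum_filter]
    refine Finset.sum_congr rfl fun v _ => ?_
    split_ifs with h1
    · rfl
    · exact wt_zero_of_six (by omega)
  have hZN : Z ⊆ N := Finset.filter_subset _ _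
  have hW5 : ∀ Y : Finset V, ∑ v ∈ Y, wt (Qc S σ a v).card ≤ 5 * Y.card := by
    intro Y
    calc ∑ v ∈ Y, wt (Qc S σ a v).card ≤ ∑ v ∈ Y, 5 := Finset.sum_le_sum fun v _ => wt_le _
      _ = 5 * Y.card := by rw [Finset.sum_const, smul_eq_mul, mul_comm]
  rw [hWZ]
  rcases Finset.eq_empty_or_nonempty Z with hZ0 | hZ0
  · rw [hZ0, Finset.sum_empty]
    have := lemA h hE m _ haS hτc
    rw [← hN] at this
    omega
  rw [← hPm]
  -- a vertex of `Z` with the largest component
  obtain ⟨v1, hv1, hmax⟩ := Finset.exists_max_image Z (fun v => (Qc S σ a v).card) hZ0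
  have hv1N := hZN hv1
  have hv1c : (Qc S σ a v1).card ≤ 5 := (Finset.mem_filter.mp hv1).2
  have hint := Qc_inter h hE ha hv1N
  rw [← hN] at hint
  by_cases hI : ∃ v0 ∈ Z, (cp S N v0).card ≠ 2
  · obtain ⟨v0, hv0, hv0c⟩ := hI
    have hv0N := hZN hv0
    have hHcc := con_card h hE haS hP (cp_cld S N v0) (cp_con hv0N) ⟨v0, mem_cp_self hv0N⟩
    rcases hHcc with ⟨h1, _⟩ | ⟨hH1, hH2, hH3⟩
    · exact absurd h1 hv0c
    refine star_of_comp h hE haS hP hv0N _ _ ?_
    rw [← hN]
    by_cases hsub : Z ⊆ cp S N v0
    · -- case I.a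
      set H := cp S N v0 with hH
      set S0 := N.filter (fun v => Qc S σ a v = Qc S σ a v1) with hS0
      have hS0Z : S0 ⊆ Z := by
        intro v hv
        rw [hS0, Finset.mem_filter] at hv
        rw [hZ, Finset.mem_filter, hv.2]
        exact ⟨hv.1, hv1c⟩
      have hK4 := S0_bound h hE hσ hirr ha hv1N hP (cp_cld S N v0) (fun v hv hvQ =>
        hsub (hS0Z (Finset.mem_filter.mpr ⟨hv, hvQ⟩)))
      rw [← hN, ← hH, ← hS0] at hK4
      have hcardZ : Z.card ≤ S0.card + ((Z \ S0) \ Qc S σ a v1).card +
          (Qc S σ a v1 ∩ N).card := by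
        have h1 : Z ⊆ (S0 ∪ ((Z \ S0) \ Qc S σ a v1)) ∪ (Qc S σ a v1 ∩ N) := by
          intro y hy
          simp only [Finset.mem_union, Finset.mem_sdiff, Finset.mem_inter]
          have := hZN hy
          tauto
        refine (Finset.card_le_card h1).trans ?_
        refine (Finset.card_union_le _ _).trans ?_
        have := Finset.card_union_le S0 ((Z \ S0) \ Qc S σ a v1)
        omega
      have hint2 := hint.2 hv1c
      have hZb : Z.card + 2 * (P ∩ H).card ≤ H.card + 4 := by
        rcases Finset.eq_empty_or_nonempty ((Z \ S0) \ Qc S σ a v1) with hR | hR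
        · rw [hR, Finset.card_empty] at hcardZ
          omega
        · have hK5 := sep_bound h hE haS hP (cp_cld S N v0) (A := S0)
            (B := (Z \ S0) \ Qc S σ a v1) (hS0Z.trans hsub)
            ((Finset.sdiff_subset.trans Finset.sdiff_subset).trans hsub)
            ⟨v1, Finset.mem_filter.mpr ⟨hv1N, rfl⟩⟩ hR
            (by
              rw [Finset.disjoint_left]
              intro y hy hy2
              rw [Finset.mem_sdiff, Finset.mem_sdiff] at hy2
              exact hy2.1.2 hy)
            (by
              intro x hx y hy hxy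
              rw [Finset.mem_sdiff, Finset.mem_sdiff] at hy
              obtain ⟨⟨hy1, hy2⟩, hy3⟩ := hy
              rw [hS0, Finset.mem_filter] at hx
              have hyN := hZN hy1
              have hyx : y ≠ x := by
                rintro rfl
                exact hy2 (Finset.mem_filter.mpr hx)
              have h1 := Qc_sub h hE ha hx.1 hyN hyx hxy (by rw [hx.2]; exact hy3)
              rw [hx.2] at h1
              apply hy2
              rw [hS0, Finset.mem_filter]
              exact ⟨hyN, (Finset.eq_of_subset_of_card_le h1 (hmax y hy1)).symm⟩)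
          rw [← hH] at hK5
          omega
      have := hW5 Z
      omega
    · -- case I.b
      obtain ⟨v', hv', hv'H⟩ := Finset.not_subset.mp hsub
      set H := cp S N v0 with hH
      have key : ∀ v ∈ Z, v ∈ H → ∀ u ∈ Z, u ∉ H → u ∈ Qc S σ a v := by
        intro v hv hvH u hu huH
        have hvN := hZN hv
        have huN := hZN hu
        have hHv : cp S N v = H := cp_eq hv0N hvH
        have hHu : v ∉ cp S N u := by
          intro h1
          have h2 := cp_eq huN h1
          rw [hHv] at h2
          rw [h2] at huH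
          exact huH (mem_cp_self huN)
        have hvu : ({v, u} : Finset V) ∈ S :=
          (cp_cld S N v0).2 v hvH u (Finset.mem_sdiff.mpr ⟨huN, huH⟩)
        have hne : u ≠ v := by
          rintro rfl
          exact huH hvH
        by_contra hcon
        have h1 := Qc_sub h hE ha hvN huN hne hvu hcon
        by_cases hvQ : v ∈ Qc S σ a u
        · -- then the component of `v` is small
          have h2 := comp_sub_Qc h hE ha huN hvN (by
            rw [← hN, hHv]
            exact huH) hvQ
          rw [← hN, hHv] at h2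
          have h3 := (Qc_inter h hE ha huN).2 (Finset.mem_filter.mp hu).2
          rw [← hN] at h3
          have := Finset.card_le_card h2
          omega
        · have h2 := Qc_sub h hE ha huN hvN hne.symm (pair_symm hvu) hvQ
          exact two_comp_false h hE hσ hirr ha hvN huN (by
            rw [← hN, hHv]
            exact huH) (Finset.Subset.antisymm h2 h1)
      have hwt : ∀ v ∈ Z, v ∈ H → wt (Qc S σ a v).card ≤ 1 := by
        intro v hv hvH
        apply wt_le_one
        intro h1
        have h2 := (Qc_inter h hE ha (hZN hv)).1 h1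
        have h3 := key v hv hvH v' hv' hv'H
        have h4 : v' ∈ Qc S σ a v ∩ lv S (insert a σ) := Finset.mem_inter.mpr ⟨h3, hZN hv'⟩
        rw [h2] at h4
        exact absurd h4 (Finset.notMem_empty _)
      have hv0H : v0 ∈ H := mem_cp_self hv0N
      have h1 : (Z \ H).card ≤ 2 := by
        refine le_trans (Finset.card_le_card ?_) ((Qc_inter h hE ha hv0N).2
          (Finset.mem_filter.mp hv0).2)
        intro u hu
        rw [Finset.mem_sdiff] at hu
        exact Finset.mem_inter.mpr ⟨key v0 hv0 hv0H u hu.1 hu.2, hZN hu.1⟩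
      have h2 : ∑ v ∈ Z, wt (Qc S σ a v).card ≤ H.card + 10 := by
        rw [← Finset.sum_inter_add_sum_sdiff Z H]
        have h3 : ∑ v ∈ Z ∩ H, wt (Qc S σ a v).card ≤ ∑ v ∈ Z ∩ H, 1 :=
          Finset.sum_le_sum fun v hv => hwt v (Finset.mem_inter.mp hv).1 (Finset.mem_inter.mp hv).2
        rw [Finset.sum_const, smul_eq_mul, mul_one] at h3
        have h4 := hW5 (Z \ H)
        have h5 : (Z ∩ H).card ≤ H.card := Finset.card_le_card Finset.inter_subset_right
        omega
      omega
  · -- case II
    push Not at hI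
    have hH2 := hI v1 hv1
    have hHcc := con_card h hE haS hP (cp_cld S N v1) (cp_con hv1N) ⟨v1, mem_cp_self hv1N⟩
    refine star_of_comp h hE haS hP hv1N _ _ ?_
    rw [← hN]
    have hsub : Z ⊆ cp S N v1 ∪ (Qc S σ a v1 ∩ N) := by
      intro u hu
      by_contra hcon
      rw [Finset.mem_union, Finset.mem_inter, not_or] at hcon
      have huN := hZN hu
      have h1 : u ∉ Qc S σ a v1 := fun h' => hcon.2 ⟨h', huN⟩
      have hne : u ≠ v1 := by
        rintro rfl
        exact hcon.1 (mem_cp_self hv1N)
      have hvu : ({v1, u} : Finset V) ∈ S :=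
        (cp_cld S N v1).2 v1 (mem_cp_self hv1N) u (Finset.mem_sdiff.mpr ⟨huN, hcon.1⟩)
      have h2 := Qc_sub h hE ha hv1N huN hne hvu h1
      exact two_comp_false h hE hσ hirr ha hv1N huN hcon.1
        (Finset.eq_of_subset_of_card_le h2 (hmax u hu)).symm
    have h3 := (Finset.card_le_card hsub).trans (Finset.card_union_le _ _)
    have h4 := hint.2 hv1c
    have h5 := hW5 Z
    rw [hH2] at hHcc h3 ⊢
    rw [wt_two]
    omega

end

end Pool.Agent.MP19e880
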